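import Pool.Agent.Y449.MK.Tower

/-!
Groups that commute modulo a tower of translations act cocompactly only on the whole space.
-/

set_option autoImplicit false

open Set Filter Topology Metric
open Pool.Agent.W689.Mk Pool.Agent.TH94.MK

namespace Pool.Agent.Y449.MK

section
variable {X Γ E : Type} [NormedAddCommGroup E] [NormedSpace ℝ E] [FiniteDimensional ℝ E]
  [TopologicalSpace X] [T2Space X] [SecondCountableTopology X] [Group Γ] [MulAction Γ X]
  {dev : X → E} {hol : Γ →* (E ≃ᵃ[ℝ] E)}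

/-- the orbit of a point spans, modulo an invariant subspace -/
theorem orbit_span [Nonempty X] (D : AffData X Γ E dev hol) {F : Submodule ℝ E}
    (hF : ∀ (γ : Γ), ∀ v ∈ F, lin hol γ v ∈ F) (c : E) :
    F ⊔ Submodule.span ℝ (range fun δ : Γ => hol δ c - c) = ⊤ := by
  let V : Submodule ℝ E := F ⊔ Submodule.span ℝ (range fun δ : Γ => hol δ c - c)
  have hmem : ∀ δ : Γ, hol δ c - c ∈ V := fun δ =>
    (le_sup_right : Submodule.span ℝ (range fun δ : Γ => hol δ c - c) ≤ V)
      (Submodule.subset_span ⟨δ, rfl⟩)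
  have hV : ∀ (γ : Γ), ∀ v ∈ V, lin hol γ v ∈ V := by
    intro γ v hv
    have h1 : V ≤ V.comap ((hol γ).linear : E →ₗ[ℝ] E) := by
      refine sup_le (fun v hv => (le_sup_left : F ≤ V) (hF γ v hv)) ?_
      rw [Submodule.span_le]
      rintro _ ⟨δ, rfl⟩
      show lin hol γ (hol δ c - c) ∈ V
      rw [← hol_sub]
      have h2 := V.sub_mem (hmem (γ * δ)) (hmem γ)
      rw [map_mul] at h2
      convert h2 using 1
      show hol γ (hol δ c) - hol γ c = (hol γ (hol δ c) - c) - (hol γ c - c)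
      abel
    exact h1 hv
  have hC : {q : E | q - c ∈ V} = univ := by
    refine star_univ D (p := c) (C := {q : E | q - c ∈ V}) ?_ ?_ ?_
    · show c - c ∈ V
      rw [sub_self]
      exact V.zero_mem
    · intro q hq a b ha hb hab
      show a • c + b • q - c ∈ V
      have e1 : a • c + b • q - c = b • (q - c) := by
        have : a = 1 - b := by linarith
        rw [this]
        module
      rw [e1]
      exact V.smul_mem b hq
    · intro γ q hq
      show hol γ q - c ∈ V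
      have e1 : hol γ q - c = lin hol γ (q - c) + (hol γ c - c) := by
        rw [← hol_sub]
        abel
      rw [e1]
      exact V.add_mem (hV γ _ hq) (hmem γ)
  rw [eq_top_iff]
  intro v _
  have h1 : v + c ∈ {q : E | q - c ∈ V} := by rw [hC]; trivial
  have h2 : v + c - c ∈ V := h1
  rwa [add_sub_cancel_right] at h2

/-- boundedness of the linear parts by commutation -/
theorem lin_bdd [Nonempty X] (D : AffData X Γ E dev hol) {F : Submodule ℝ E}
    (hF : ∀ (γ : Γ), ∀ v ∈ F, lin hol γ v ∈ F)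
    (hcomm : ∀ (γ δ : Γ) (q : E), hol (γ * δ) q - hol (δ * γ) q ∈ F)
    (P : E →L[ℝ] E) (hP : ∀ v ∈ F, P v = 0) {γ : ℕ → Γ} {c : ℕ → E} {c0 q : E}
    (hc : Tendsto c atTop (𝓝 c0)) (hq : Tendsto (fun k => hol (γ k) (c k)) atTop (𝓝 q)) :
    ∃ C : ℝ, ∀ᶠ k in atTop, ∀ u : E, ‖P (lin hol (γ k) u)‖ ≤ C * ‖u‖ := by
  classical
  -- the operators
  let Tk : ℕ → E →L[ℝ] E := fun k =>
    P.comp (LinearMap.toContinuousLinearMap ((hol (γ k)).linear : E →ₗ[ℝ] E))
  have hTk : ∀ k u, Tk k u = P (lin hol (γ k) u) := fun k u => rfl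
  have hTF : ∀ k, ∀ v ∈ F, Tk k v = 0 := fun k v hv => hP _ (hF _ v hv)
  -- one vector of the orbit
  have h1 : ∀ δ : Γ, ∃ (A : ℝ) (e : ℕ → ℝ), Tendsto e atTop (𝓝 0) ∧
      ∀ k, ‖Tk k (hol δ c0 - c0)‖ ≤ A + e k * ‖Tk k‖ := by
    intro δ
    have hb : Tendsto (fun k => P (hol δ (hol (γ k) (c k)) - hol (γ k) (c k))) atTop
        (𝓝 (P (hol δ q - q))) :=
      (P.continuous.tendsto _).comp ((((hol_cont δ).tendsto q).comp hq).sub hq)
    obtain ⟨A, hA⟩ := bdd_of_tendsto hb
    refine ⟨A, fun k => ‖(hol δ c0 - c0) - (hol δ (c k) - c k)‖, ?_, fun k => ?_⟩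
    · have h2 : Tendsto (fun k => (hol δ c0 - c0) - (hol δ (c k) - c k)) atTop
          (𝓝 ((hol δ c0 - c0) - (hol δ c0 - c0))) :=
        tendsto_const_nhds.sub ((((hol_cont δ).tendsto c0).comp hc).sub hc)
      rw [sub_self] at h2
      simpa using h2.norm
    · have e1 : Tk k (hol δ (c k) - c k) = P (hol δ (hol (γ k) (c k)) - hol (γ k) (c k)) := by
        have h3 := hP _ (hcomm (γ k) δ (c k))
        have h4 : Tk k (hol δ (c k) - c k) = P (hol (γ k * δ) (c k) - hol (γ k) (c k)) := by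
          rw [hTk, ← hol_sub, map_mul]
          rfl
        have h5 : hol (γ k * δ) (c k) - hol (γ k) (c k) =
            (hol (γ k * δ) (c k) - hol (δ * γ k) (c k)) +
              (hol δ (hol (γ k) (c k)) - hol (γ k) (c k)) := by
          have h6 : hol (δ * γ k) (c k) = hol δ (hol (γ k) (c k)) := by rw [map_mul]; rfl
          rw [h6]; abel
        rw [h4, h5, map_add, h3, zero_add]
      have e2 : Tk k (hol δ c0 - c0) = Tk k (hol δ (c k) - c k) +
          Tk k ((hol δ c0 - c0) - (hol δ (c k) - c k)) := by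
        rw [← map_add]; congr 1; abel
      rw [e2, e1]
      refine (norm_add_le _ _).trans (add_le_add (hA k) ?_)
      rw [mul_comm]
      exact (Tk k).le_opNorm _
  -- all vectors
  have h2 : ∀ u : E, ∃ (A : ℝ) (e : ℕ → ℝ), Tendsto e atTop (𝓝 0) ∧
      ∀ k, ‖Tk k u‖ ≤ A + e k * ‖Tk k‖ := by
    intro u
    have hu : u ∈ F ⊔ Submodule.span ℝ (range fun δ : Γ => hol δ c0 - c0) := by
      rw [orbit_span D hF c0]
      trivial
    obtain ⟨f, hf, g, hg, rfl⟩ := Submodule.mem_sup.1 hu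
    have h3 : ∃ (A : ℝ) (e : ℕ → ℝ), Tendsto e atTop (𝓝 0) ∧
        ∀ k, ‖Tk k g‖ ≤ A + e k * ‖Tk k‖ := by
      clear hu
      induction hg using Submodule.span_induction with
      | mem v hv =>
        obtain ⟨δ, rfl⟩ := hv
        exact h1 δ
      | zero => exact ⟨0, fun _ => 0, tendsto_const_nhds, fun k => by simp⟩
      | add v w _ _ hv hw =>
        obtain ⟨A, e, he, hA⟩ := hv
        obtain ⟨A', e', he', hA'⟩ := hw
        refine ⟨A + A', fun k => e k + e' k, by simpa using he.add he', fun k => ?_⟩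
        rw [map_add]
        refine (norm_add_le _ _).trans ?_
        have := hA k
        have := hA' k
        linarith
      | smul a v _ hv =>
        obtain ⟨A, e, he, hA⟩ := hv
        refine ⟨|a| * A, fun k => |a| * e k, by simpa using he.const_mul (|a|), fun k => ?_⟩
        rw [map_smul, norm_smul, Real.norm_eq_abs]
        calc |a| * ‖Tk k v‖ ≤ |a| * (A + e k * ‖Tk k‖) :=
              mul_le_mul_of_nonneg_left (hA k) (abs_nonneg a)
          _ = |a| * A + |a| * e k * ‖Tk k‖ := by ring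
    obtain ⟨A, e, he, hA⟩ := h3
    refine ⟨A, e, he, fun k => ?_⟩
    rw [map_add, hTF k f hf, zero_add]
    exact hA k
  -- operator norm
  let b := Module.finBasis ℝ E
  choose A e he hA using fun i => h2 (b i)
  obtain ⟨K, hK0, hK⟩ : ∃ K : ℝ, 0 ≤ K ∧ ∀ (T : E →L[ℝ] E) (M : ℝ), 0 ≤ M →
      (∀ i, ‖T (b i)‖ ≤ M) → ‖T‖ ≤ K * M := by
    refine ⟨Fintype.card (Fin (Module.finrank ℝ E)) • ‖b.equivFunL.toContinuousLinearMap‖,
      by positivity, fun T M hM h => ?_⟩
    exact b.opNorm_le hM h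
  let A' : ℝ := ∑ i, |A i|
  let e' : ℕ → ℝ := fun k => ∑ i, |e i k|
  have he' : Tendsto e' atTop (𝓝 0) := by
    have h3 : Tendsto e' atTop (𝓝 (∑ _i : Fin (Module.finrank ℝ E), |(0 : ℝ)|)) :=
      tendsto_finsetSum _ fun i _ => (he i).abs
    simpa using h3
  have hbound : ∀ k, ‖Tk k‖ ≤ K * (A' + e' k * ‖Tk k‖) := by
    intro k
    refine hK _ _ (by positivity) fun i => (hA i k).trans ?_
    have h3 : A i ≤ A' := (le_abs_self _).trans
      (Finset.single_le_sum (f := fun i => |A i|) (fun j _ => abs_nonneg _) (Finset.mem_univ i))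
    have h4 : e i k ≤ e' k := (le_abs_self _).trans
      (Finset.single_le_sum (f := fun i => |e i k|) (fun j _ => abs_nonneg _) (Finset.mem_univ i))
    have := norm_nonneg (Tk k)
    nlinarith
  refine ⟨2 * (K * A'), ?_⟩
  have h5 : Tendsto (fun k => K * e' k) atTop (𝓝 (K * 0)) := he'.const_mul K
  rw [mul_zero] at h5
  filter_upwards [h5.eventually_le_const (show (0 : ℝ) < 1 / 2 by norm_num)] with k hk u
  have h6 := hbound k
  have h7 := norm_nonneg (Tk k)
  have h8 : ‖Tk k‖ ≤ 2 * (K * A') := by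
    have e1 : K * (A' + e' k * ‖Tk k‖) = K * A' + (K * e' k) * ‖Tk k‖ := by ring
    rw [e1] at h6
    nlinarith
  rw [← hTk]
  exact ((Tk k).le_opNorm u).trans (mul_le_mul_of_nonneg_right h8 (norm_nonneg _))

/-- a projection with a given kernel -/
theorem exists_P (F : Submodule ℝ E) : ∃ P : E →L[ℝ] E, (∀ v ∈ F, P v = 0) ∧
    ∀ v, v - P v ∈ F := by
  obtain ⟨W, hW⟩ := F.exists_isCompl
  let p : E →ₗ[ℝ] E := W.subtype ∘ₗ (W.projectionOnto F hW.symm)
  have hp : ∀ v, p v = (W.projectionOnto F hW.symm v : E) := fun _ => rfl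
  refine ⟨LinearMap.toContinuousLinearMap p, fun v hv => ?_, fun v => ?_⟩
  · show p v = 0
    rw [hp, Submodule.projectionOnto_apply_of_mem_right hW.symm hv]
    rfl
  · show v - p v ∈ F
    rw [← Submodule.projectionOnto_apply_eq_zero_iff hW.symm, map_sub, hp,
      Submodule.projectionOnto_apply_left, sub_self]

/-- the domain is closed -/
theorem closed_of_comm [Nonempty X] (D : AffData X Γ E dev hol) (hinj : Function.Injective dev)
    {F : Submodule ℝ E} {N : Subgroup Γ} (hG : Good hol (range dev) F N)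
    (hcomm : ∀ (γ δ : Γ) (q : E), hol (γ * δ) q - hol (δ * γ) q ∈ F) :
    IsClosed (range dev) := by
  rw [← closure_subset_iff_isClosed]
  intro q hq
  obtain ⟨qs, hqs, hlim⟩ := mem_closure_iff_seq_limit.1 hq
  obtain ⟨C0, hC0, hC0r, hcc⟩ := range_cc D
  choose γ c hcC hγc using fun k => hcc (qs k) (hqs k)
  obtain ⟨c0, hc0, φ, hφ, hcl⟩ := hC0.tendsto_subseq hcC
  have hlim' : Tendsto (fun k => hol (γ (φ k)) (c (φ k))) atTop (𝓝 q) :=
    (hlim.comp hφ.tendsto_atTop).congr fun k => (hγc (φ k)).symm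
  obtain ⟨P, hP, hPF⟩ := exists_P F
  obtain ⟨C, hC⟩ := lin_bdd D hG.inv hcomm P hP (γ := fun k => γ (φ k)) hcl hlim'
  obtain ⟨k0, hk0⟩ := eventually_atTop.1 hC
  have hc0r := hC0r hc0
  obtain ⟨r, hr, hball⟩ := Metric.nhds_basis_closedBall.mem_iff.1
    ((D.loc.isOpenMap.isOpen_range).mem_nhds hc0r)
  obtain ⟨C1, hC1⟩ := bdd_of_tendsto hlim'
  obtain ⟨C2, hC2⟩ := bdd_of_tendsto hcl
  have hshift : Tendsto (fun k : ℕ => k + k0) atTop atTop := tendsto_add_atTop_nat k0
  refine limit_mem D hinj hG hr hball (n := fun k => γ (φ (k + k0)))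
    (w := fun k => c (φ (k + k0))) (w0 := c0)
    (R := ‖P‖ * C1 + |C| * ((‖c0‖ + r) + C2)) ?_ (hcl.comp hshift) hc0r (hlim'.comp hshift)
  intro k u hu
  refine ⟨_, hPF (hol (γ (φ (k + k0))) u), ?_⟩
  rw [sub_sub_cancel]
  have h1 := hk0 (k + k0) (Nat.le_add_left _ _) (u - c (φ (k + k0)))
  have h2 : hol (γ (φ (k + k0))) u = hol (γ (φ (k + k0))) (c (φ (k + k0))) +
      lin hol (γ (φ (k + k0))) (u - c (φ (k + k0))) := by
    rw [← hol_sub]; abel
  have hu1 : ‖u‖ ≤ ‖c0‖ + r := by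
    have h2 : ‖u - c0‖ < r := by rwa [mem_ball, dist_eq_norm] at hu
    have h3 : ‖u‖ ≤ ‖c0‖ + ‖u - c0‖ := by
      calc ‖u‖ = ‖c0 + (u - c0)‖ := by congr 1; abel
        _ ≤ _ := norm_add_le _ _
    linarith
  rw [h2, map_add]
  refine (norm_add_le _ _).trans (add_le_add ?_ ?_)
  · exact (P.le_opNorm _).trans (mul_le_mul_of_nonneg_left (hC1 _) (norm_nonneg _))
  · refine h1.trans ?_
    have h3 : ‖u - c (φ (k + k0))‖ ≤ (‖c0‖ + r) + C2 :=
      (norm_sub_le _ _).trans (add_le_add hu1 (hC2 _))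
    have h4 := le_abs_self C
    have h5 := norm_nonneg (u - c (φ (k + k0)))
    have h6 := abs_nonneg C
    nlinarith

theorem complete_of_comm [Nonempty X] (D : AffData X Γ E dev hol) (hinj : Function.Injective dev)
    {F : Submodule ℝ E} {N : Subgroup Γ} (hG : Good hol (range dev) F N)
    (hcomm : ∀ (γ δ : Γ) (q : E), hol (γ * δ) q - hol (δ * γ) q ∈ F) : IsHomeomorph dev := by
  have h1 : range dev = univ :=
    IsClopen.eq_univ ⟨closed_of_comm D hinj hG hcomm, D.loc.isOpenMap.isOpen_range⟩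
      (range_nonempty dev)
  exact ⟨D.loc.continuous, D.loc.isOpenMap, hinj, range_eq_univ.1 h1⟩

end

end Pool.Agent.Y449.MK
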