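import Pool.Agent.Y449.MK.Good

/-!
A group acting properly on a domain: finitely many cosets have bounded image modulo a good pair.
-/

set_option autoImplicit false

open Set Filter Topology MeasureTheory Metric
open scoped ENNReal
open Pool.Agent.W689.Mk Pool.Agent.TH94.MK

namespace Pool.Agent.Y449.MK

section
variable {X Γ E : Type} [NormedAddCommGroup E] [NormedSpace ℝ E] [FiniteDimensional ℝ E]
  [TopologicalSpace X] [T2Space X] [SecondCountableTopology X] [Group Γ] [MulAction Γ X]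
  {dev : X → E} {hol : Γ →* (E ≃ᵃ[ℝ] E)}

/-- bounded multiplicity of the translates of a ball -/
theorem mult [MeasurableSpace E] [BorelSpace E] (D : AffData X Γ E dev hol)
    (hinj : Function.Injective dev) {p : E} {r : ℝ} (hball : closedBall p r ⊆ range dev) :
    ∃ m : ℕ, ∀ (Y : Set E), MeasurableSet Y → ∀ T : Finset Γ,
      ∑ γ ∈ T, (Measure.addHaar : Measure E) ((hol γ⁻¹) ⁻¹' (ball p r) ∩ Y) ≤
        m * (Measure.addHaar : Measure E) Y := by
  classical
  have : ProperSpace E := FiniteDimensional.proper ℝ E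
  have hA := range_pd D hinj (closedBall p r) (isCompact_closedBall p r) hball
  refine ⟨hA.toFinset.card, fun Y hY T => ?_⟩
  have hmeas : ∀ γ : Γ, MeasurableSet ((hol γ⁻¹) ⁻¹' (ball p r)) := fun γ =>
    (isOpen_ball.preimage (hol_cont _)).measurableSet
  have h1 : ∀ γ ∈ T, (Measure.addHaar : Measure E) ((hol γ⁻¹) ⁻¹' (ball p r) ∩ Y) =
      ∫⁻ y in Y, ((hol γ⁻¹) ⁻¹' (ball p r)).indicator (fun _ => (1 : ℝ≥0∞)) y
        ∂(Measure.addHaar : Measure E) := by
    intro γ _
    rw [lintegral_indicator (hmeas γ), lintegral_one, Measure.restrict_apply_univ,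
      Measure.restrict_apply (hmeas γ)]
  rw [Finset.sum_congr rfl h1, ← lintegral_finsetSum _ fun γ _ =>
    (measurable_const.indicator (hmeas γ))]
  have h2 : ∀ y : E, ∑ γ ∈ T, ((hol γ⁻¹) ⁻¹' (ball p r)).indicator (fun _ => (1 : ℝ≥0∞)) y ≤
      (hA.toFinset.card : ℝ≥0∞) := by
    intro y
    have h3 : ∑ γ ∈ T, ((hol γ⁻¹) ⁻¹' (ball p r)).indicator (fun _ => (1 : ℝ≥0∞)) y =
        ((T.filter fun γ => hol γ⁻¹ y ∈ ball p r).card : ℝ≥0∞) := by
      rw [Finset.card_filter, Nat.cast_sum]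
      refine Finset.sum_congr rfl fun γ _ => ?_
      by_cases h : hol γ⁻¹ y ∈ ball p r
      · rw [indicator_of_mem (show y ∈ (hol γ⁻¹) ⁻¹' (ball p r) from h), if_pos h, Nat.cast_one]
      · rw [indicator_of_notMem (show y ∉ (hol γ⁻¹) ⁻¹' (ball p r) from h), if_neg h,
          Nat.cast_zero]
    rw [h3]
    norm_cast
    rcases (T.filter fun γ => hol γ⁻¹ y ∈ ball p r).eq_empty_or_nonempty with h0 | ⟨γ0, h0⟩
    · rw [h0]; simp
    · rw [Finset.mem_filter] at h0
      refine Finset.card_le_card_of_injOn (fun γ => γ⁻¹ * γ0) ?_ ?_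
      · intro γ hγ
        rw [Finset.mem_coe, Finset.mem_filter] at hγ
        rw [Finset.mem_coe, Set.Finite.mem_toFinset]
        refine ⟨hol γ0⁻¹ y, ball_subset_closedBall h0.2, ?_⟩
        have h4 : hol (γ⁻¹ * γ0) (hol γ0⁻¹ y) = hol γ⁻¹ y := by
          rw [map_mul]
          show hol γ⁻¹ (hol γ0 (hol γ0⁻¹ y)) = _
          rw [hol_apply_inv]
        rw [h4]
        exact ball_subset_closedBall hγ.2
      · intro γ _ γ' _ h
        have h5 : γ⁻¹ = γ'⁻¹ := mul_right_cancel h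
        exact inv_injective h5
  calc ∫⁻ y in Y, ∑ γ ∈ T, ((hol γ⁻¹) ⁻¹' (ball p r)).indicator (fun _ => (1 : ℝ≥0∞)) y
        ∂(Measure.addHaar : Measure E)
      ≤ ∫⁻ _y in Y, (hA.toFinset.card : ℝ≥0∞) ∂(Measure.addHaar : Measure E) :=
        lintegral_mono h2
    _ = hA.toFinset.card * (Measure.addHaar : Measure E) Y := setLIntegral_const _ _

/-- elements with bounded image modulo `F` lie in finitely many cosets of `N` -/
theorem finite_cosets [Nonempty X] (D : AffData X Γ E dev hol) (hinj : Function.Injective dev)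
    {F : Submodule ℝ E} {N : Subgroup Γ} (hG : Good hol (range dev) F N) {p : E} {r R : ℝ}
    (hr : 0 < r) (hball : closedBall p r ⊆ range dev) {S : Set Γ}
    (hS : ∀ γ ∈ S, ∀ u ∈ ball p r, ∃ f ∈ F, ‖hol γ u - f‖ ≤ R) :
    ∃ T : Set Γ, T.Finite ∧ ∀ γ ∈ S, ∃ δ ∈ T, γ * δ⁻¹ ∈ N := by
  classical
  let _ : MeasurableSpace E := borel E
  have : BorelSpace E := ⟨rfl⟩
  let _ : MeasurableSpace X := borel X
  have : BorelSpace X := ⟨rfl⟩
  have : ProperSpace E := FiniteDimensional.proper ℝ E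
  have : Countable Γ := countable_group D
  obtain ⟨m, hm⟩ := mult D hinj hball
  obtain ⟨R', hR'⟩ := hG.cocpt R
  let μ : Measure E := Measure.addHaar
  let Q := Quotient (QuotientGroup.rightRel N)
  let mk : Γ → Q := fun γ => Quotient.mk (QuotientGroup.rightRel N) γ
  have hmk : ∀ γ δ : Γ, mk γ = mk δ → δ * γ⁻¹ ∈ N := by
    intro γ δ h
    have h1 := Quotient.exact h
    exact QuotientGroup.rightRel_apply.1 h1
  have hmk' : ∀ γ δ : Γ, δ * γ⁻¹ ∈ N → mk γ = mk δ := by
    intro γ δ h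
    exact Quotient.sound (QuotientGroup.rightRel_apply.2 h)
  by_cases hfin : (mk '' S).Finite
  · refine ⟨Quotient.out '' (mk '' S), hfin.image _, fun γ hγ => ?_⟩
    refine ⟨(mk γ).out, ⟨mk γ, ⟨γ, hγ, rfl⟩, rfl⟩, ?_⟩
    exact hmk _ _ (Quotient.out_eq (mk γ))
  · exfalso
    have hinf : (mk '' S).Infinite := hfin
    -- representatives
    have hrep : ∀ c : Q, ∃ γ : Γ, c ∈ mk '' S → (γ ∈ S ∧ mk γ = c) := by
      intro c
      by_cases hc : c ∈ mk '' S
      · obtain ⟨γ, hγ, rfl⟩ := hc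
        exact ⟨γ, fun _ => ⟨hγ, rfl⟩⟩
      · exact ⟨1, fun h => absurd h hc⟩
    choose rep hrep using hrep
    have hY : MeasurableSet (closedBall (0 : E) R') := isClosed_closedBall.measurableSet
    have hYfin : μ (closedBall (0 : E) R') < ∞ := measure_closedBall_lt_top
    have hU : 0 < μ (ball p r) := measure_ball_pos _ _ hr
    -- the measure of the ball is covered by the translates
    have hcover : ∀ c ∈ mk '' S, μ (ball p r) ≤
        ∑' n : N, μ ((hol ((n : Γ) * rep c)⁻¹) ⁻¹' (ball p r) ∩ closedBall (0 : E) R') := by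
      intro c hc
      obtain ⟨hcS, -⟩ := hrep c hc
      have h1 : ball p r ⊆ ⋃ n : N, (ball p r ∩ (hol ((n : Γ) * rep c)) ⁻¹' closedBall (0 : E) R') := by
        intro u hu
        obtain ⟨f, hf, hfu⟩ := hS _ hcS u hu
        obtain ⟨n, hn, hnu⟩ := hR' _ f hf hfu
        refine mem_iUnion.2 ⟨⟨n, hn⟩, hu, ?_⟩
        show hol (n * rep c) u ∈ closedBall (0 : E) R'
        rw [map_mul, mem_closedBall, dist_zero_right]
        exact hnu
      refine (measure_mono h1).trans ((measure_iUnion_le _).trans (ENNReal.tsum_le_tsum fun n => ?_))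
      have h2 : (hol ((n : Γ) * rep c)⁻¹) ⁻¹' (ball p r) ∩ closedBall (0 : E) R' =
          (hol ((n : Γ) * rep c)⁻¹) ⁻¹' (ball p r ∩ (hol ((n : Γ) * rep c)) ⁻¹' closedBall (0 : E) R') := by
        ext y
        constructor
        · rintro ⟨h3, h4⟩
          refine ⟨h3, ?_⟩
          show hol ((n : Γ) * rep c) (hol ((n : Γ) * rep c)⁻¹ y) ∈ closedBall (0 : E) R'
          rw [hol_apply_inv]
          exact h4
        · rintro ⟨h3, h4⟩
          refine ⟨h3, ?_⟩
          have h5 : hol ((n : Γ) * rep c) (hol ((n : Γ) * rep c)⁻¹ y) ∈ closedBall (0 : E) R' := h4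
          rwa [hol_apply_inv] at h5
      rw [h2, hol_preimage μ D]
    -- contradiction
    have hk : ∀ k : ℕ, (k : ℝ≥0∞) * μ (ball p r) ≤ m * μ (closedBall (0 : E) R') := by
      intro k
      obtain ⟨J, hJ, hJk⟩ := hinf.exists_subset_card_eq k
      have h1 : (k : ℝ≥0∞) * μ (ball p r) ≤ ∑ c ∈ J,
          ∑' n : N, μ ((hol ((n : Γ) * rep c)⁻¹) ⁻¹' (ball p r) ∩ closedBall (0 : E) R') := by
        rw [← hJk, ← nsmul_eq_mul, ← Finset.sum_const]
        exact Finset.sum_le_sum fun c hc => hcover c (hJ hc)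
      refine h1.trans ?_
      have h2 : ∑ c ∈ J, ∑' n : N,
          μ ((hol ((n : Γ) * rep c)⁻¹) ⁻¹' (ball p r) ∩ closedBall (0 : E) R') =
          ∑' x : J × N, μ ((hol ((x.2 : Γ) * rep x.1)⁻¹) ⁻¹' (ball p r) ∩
            closedBall (0 : E) R') := by
        rw [ENNReal.tsum_prod', tsum_fintype, ← Finset.sum_coe_sort J]
      rw [h2]
      have h3 : Function.Injective (fun x : J × N => (x.2 : Γ) * rep x.1) := by
        rintro ⟨⟨c, hc⟩, n⟩ ⟨⟨c', hc'⟩, n'⟩ h
        simp only at h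
        have h4 : mk (rep c) = mk (rep c') := by
          apply hmk'
          have h5 : rep c' * (rep c)⁻¹ = (n' : Γ)⁻¹ * n := by
            have h6 : rep c' = (n' : Γ)⁻¹ * ((n : Γ) * rep c) := by rw [h]; group
            rw [h6]; group
          rw [h5]
          exact N.mul_mem (N.inv_mem n'.2) n.2
        have h7 : c = c' := by
          rw [← (hrep c (hJ hc)).2, ← (hrep c' (hJ hc')).2, h4]
        subst h7
        have h8 : (n : Γ) = n' := mul_right_cancel h
        have h9 : n = n' := Subtype.ext h8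
        rw [h9]
      refine (ENNReal.tsum_comp_le_tsum_of_injective h3 (fun γ : Γ =>
        μ ((hol γ⁻¹) ⁻¹' (ball p r) ∩ closedBall (0 : E) R'))).trans ?_
      rw [ENNReal.tsum_eq_iSup_sum]
      exact iSup_le fun T => hm _ hY T
    -- archimedean
    have hfin2 : (m : ℝ≥0∞) * μ (closedBall (0 : E) R') < ∞ :=
      ENNReal.mul_lt_top (ENNReal.natCast_lt_top m) hYfin
    obtain ⟨k, hk1⟩ := ENNReal.exists_nat_mul_gt hU.ne' hfin2.ne
    exact absurd (hk k) (not_le.2 hk1)

end

end Pool.Agent.Y449.MK
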