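import Pool.Agent.Y449.MK.Spec

/-!
Affine manifolds whose linear holonomy is at bounded distance from a cyclic group.
-/

set_option autoImplicit false

open Set Filter Topology Metric

namespace Pool.Agent.Y449.MK

open Pool.Agent.W689.Mk Pool.Agent.TH569.MK Pool.Agent.TH330.PX

open Polynomial

section
variable {Γ E : Type} [Group Γ] [NormedAddCommGroup E] [NormedSpace ℝ E] [FiniteDimensional ℝ E]
  {hol : Γ →* (E ≃ᵃ[ℝ] E)}

theorem lin_mul' (γ δ : Γ) (v : E) : lin hol (γ * δ) v = lin hol γ (lin hol δ v) := by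
  show (hol (γ * δ)).linear v = (hol γ).linear ((hol δ).linear v)
  rw [map_mul]
  rfl

theorem lin_one' (v : E) : lin hol 1 v = v := by
  show (hol 1).linear v = v
  rw [map_one]
  rfl

theorem cl_pow (γ : Γ) (m : ℕ) (v : E) : (cl hol γ ^ m) v = lin hol (γ ^ m) v := by
  induction m with
  | zero => rw [pow_zero, pow_zero, lin_one']; rfl
  | succ m ih =>
    rw [pow_succ', pow_succ', lin_mul', ← ih]
    rfl

/-- every linear holonomy is a power of `A` or of its inverse `B` up to a bounded element -/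
def Cy (hol : Γ →* (E ≃ᵃ[ℝ] E)) (A B : E →L[ℝ] E) (C : ℝ) : Prop :=
  ∀ γ : Γ, ∃ (b b' : E →L[ℝ] E) (m : ℕ), (∀ v, ‖b v‖ ≤ C * ‖v‖) ∧ (∀ v, ‖b' v‖ ≤ C * ‖v‖) ∧
    b * A = A * b ∧ b' * A = A * b' ∧
    (((∀ v, lin hol γ v = b ((A ^ m) v)) ∧ ∀ v, lin hol γ⁻¹ v = (B ^ m) (b' v)) ∨
      ((∀ v, lin hol γ v = b ((B ^ m) v)) ∧ ∀ v, lin hol γ⁻¹ v = (A ^ m) (b' v)))

omit [FiniteDimensional ℝ E] in
theorem inv_comm {A B b : E →L[ℝ] E} (hAB : A * B = 1) (hBA : B * A = 1) (h : b * A = A * b) :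
    b * B = B * b := by
  calc b * B = (B * A) * (b * B) := by rw [hBA, one_mul]
    _ = B * (A * b) * B := by simp only [mul_assoc]
    _ = B * (b * A) * B := by rw [h]
    _ = B * b * (A * B) := by simp only [mul_assoc]
    _ = B * b := by rw [hAB, mul_one]

omit [FiniteDimensional ℝ E] in
theorem Cy.symm {A B : E →L[ℝ] E} {C : ℝ} (hAB : A * B = 1) (hBA : B * A = 1) (h : Cy hol A B C) :
    Cy hol B A C := by
  intro γ
  obtain ⟨b, b', m, h1, h2, h3, h4, h5⟩ := h γ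
  exact ⟨b, b', m, h1, h2, inv_comm hAB hBA h3, inv_comm hAB hBA h4, h5.symm⟩

omit [FiniteDimensional ℝ E] in
theorem Cy.large {A B P : E →L[ℝ] E} {C : ℝ} (h : Cy hol A B C) {V : Submodule ℝ E}
    (hV : ∀ v ∈ V, P v = v) (hB : Tendsto (fun n : ℕ => ‖B ^ n * P‖) atTop (𝓝 0)) (N : ℕ) :
    ∃ R : ℝ, ∀ γ : Γ, (∃ v ∈ V, R * ‖v‖ < ‖(hol γ).linear v‖) → ∃ (b b' : E →L[ℝ] E) (m : ℕ), N ≤ m ∧
      (∀ v, ‖b v‖ ≤ |C| * ‖v‖) ∧ (∀ v, ‖b' v‖ ≤ |C| * ‖v‖) ∧ b' * A = A * b' ∧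
      (∀ v, lin hol γ v = b ((A ^ m) v)) ∧
      ∀ v, lin hol γ⁻¹ v = (B ^ m) (b' v) := by
  obtain ⟨M, hM⟩ : ∃ M, ∀ n : ℕ, ‖B ^ n * P‖ ≤ M := by
    obtain ⟨M, hM⟩ := hB.bddAbove_range
    exact ⟨M, fun n => hM ⟨n, rfl⟩⟩
  refine ⟨|C| * (|M| + ∑ n ∈ Finset.range N, ‖A ^ n‖), fun γ hγ => ?_⟩
  obtain ⟨v, hv, hvR⟩ := hγ
  obtain ⟨b, b', m, h1, h2, c1, c2, h3⟩ := h γ
  have h1' : ∀ v, ‖b v‖ ≤ |C| * ‖v‖ := fun v =>
    (h1 v).trans (mul_le_mul_of_nonneg_right (le_abs_self C) (norm_nonneg v))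
  have h2' : ∀ v, ‖b' v‖ ≤ |C| * ‖v‖ := fun v =>
    (h2 v).trans (mul_le_mul_of_nonneg_right (le_abs_self C) (norm_nonneg v))
  have hS0 : 0 ≤ ∑ n ∈ Finset.range N, ‖A ^ n‖ := Finset.sum_nonneg fun _ _ => norm_nonneg _
  rcases h3 with h3 | h3
  · refine ⟨b, b', m, ?_, h1', h2', c2, h3⟩
    by_contra hcon
    push Not at hcon
    have h4 : ‖A ^ m‖ ≤ ∑ n ∈ Finset.range N, ‖A ^ n‖ :=
      Finset.single_le_sum (f := fun n => ‖A ^ n‖) (fun _ _ => norm_nonneg _)
        (Finset.mem_range.2 hcon)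
    have h5 : ‖lin hol γ v‖ ≤ |C| * (|M| + ∑ n ∈ Finset.range N, ‖A ^ n‖) * ‖v‖ := by
      rw [h3.1]
      calc _ ≤ |C| * ‖(A ^ m) v‖ := h1' _
        _ ≤ |C| * (‖A ^ m‖ * ‖v‖) := by
          have := (A ^ m).le_opNorm v
          gcongr
        _ ≤ |C| * ((|M| + ∑ n ∈ Finset.range N, ‖A ^ n‖) * ‖v‖) := by
          have := abs_nonneg M
          gcongr
          linarith
        _ = _ := by ring
    exact absurd hvR (not_lt.2 h5)
  · exfalso
    have h5 : ‖lin hol γ v‖ ≤ |C| * (|M| + ∑ n ∈ Finset.range N, ‖A ^ n‖) * ‖v‖ := by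
      rw [h3.1]
      have e : (B ^ m) v = (B ^ m * P) v := by
        show (B ^ m) v = (B ^ m) (P v)
        rw [hV v hv]
      calc _ ≤ |C| * ‖(B ^ m) v‖ := h1' _
        _ ≤ |C| * (‖B ^ m * P‖ * ‖v‖) := by
          rw [e]
          have := (B ^ m * P).le_opNorm v
          gcongr
        _ ≤ |C| * ((|M| + ∑ n ∈ Finset.range N, ‖A ^ n‖) * ‖v‖) := by
          have := (hM m).trans (le_abs_self M)
          gcongr
          linarith
        _ = _ := by ring
    exact absurd hvR (not_lt.2 h5)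

omit [FiniteDimensional ℝ E] in
theorem Cy.dm {A B P P' : E →L[ℝ] E} {C : ℝ} (h : Cy hol A B C) {V W : Submodule ℝ E}
    (hV : ∀ v ∈ V, P v = v) (hB : Tendsto (fun n : ℕ => ‖B ^ n * P‖) atTop (𝓝 0))
    (hW : ∀ v ∈ W, P' v = v) (hA : Tendsto (fun n : ℕ => ‖A ^ n * P'‖) atTop (𝓝 0)) :
    Dm hol V W := by
  intro ε hε
  obtain ⟨N, hN⟩ := eventually_atTop.1 (hA.eventually_lt_const
    (show (0 : ℝ) < ε / (|C| + 1) by positivity))
  obtain ⟨R, hR⟩ := h.large hV hB N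
  refine ⟨R, fun γ hγ w hw => ?_⟩
  obtain ⟨b, b', m, hm, h1, h2, c2, h3, h4⟩ := hR γ hγ
  have e : (A ^ m) w = (A ^ m * P') w := by
    show (A ^ m) w = (A ^ m) (P' w)
    rw [hW w hw]
  calc ‖(hol γ).linear w‖ = ‖b ((A ^ m * P') w)‖ := by rw [← e, ← h3]
    _ ≤ |C| * ‖(A ^ m * P') w‖ := h1 _
    _ ≤ |C| * (ε / (|C| + 1) * ‖w‖) := by
      have := (A ^ m * P').le_of_opNorm_le (hN m hm).le w
      gcongr
    _ = |C| / (|C| + 1) * (ε * ‖w‖) := by ring
    _ ≤ 1 * (ε * ‖w‖) := by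
      have h5 : |C| / (|C| + 1) ≤ 1 := by
        rw [div_le_one (by positivity)]
        linarith
      gcongr
    _ = ε * ‖w‖ := one_mul _

omit [FiniteDimensional ℝ E] in
theorem Cy.ep {A B P : E →L[ℝ] E} {C : ℝ} (h : Cy hol A B C) {V : Submodule ℝ E}
    (hV : ∀ v ∈ V, P v = v) (iV : ∀ b : E →L[ℝ] E, b * A = A * b → ∀ v ∈ V, b v ∈ V)
    (hB : Tendsto (fun n : ℕ => ‖B ^ n * P‖) atTop (𝓝 0)) : Ep hol V := by
  intro ε hε
  obtain ⟨N, hN⟩ := eventually_atTop.1 (hB.eventually_lt_const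
    (show (0 : ℝ) < ε / (|C| + 1) by positivity))
  obtain ⟨R, hR⟩ := h.large hV hB N
  refine ⟨R, fun γ hγ v hv => ?_⟩
  obtain ⟨b, b', m, hm, h1, h2, c2, h3, h4⟩ := hR γ hγ
  have e : (B ^ m) (b' v) = (B ^ m * P) (b' v) := by
    show _ = (B ^ m) (P (b' v))
    rw [hV _ (iV b' c2 _ hv)]
  calc ‖(hol γ⁻¹).linear v‖ = ‖(B ^ m * P) (b' v)‖ := by rw [← e, ← h4]
    _ ≤ ε / (|C| + 1) * ‖b' v‖ := (B ^ m * P).le_of_opNorm_le (hN m hm).le _
    _ ≤ ε / (|C| + 1) * (|C| * ‖v‖) := by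
      have := h2 v
      gcongr
    _ = |C| / (|C| + 1) * (ε * ‖v‖) := by ring
    _ ≤ 1 * (ε * ‖v‖) := by
      have h5 : |C| / (|C| + 1) ≤ 1 := by
        rw [div_le_one (by positivity)]
        linarith
      gcongr
    _ = ε * ‖v‖ := one_mul _

end

section
variable {X Γ E : Type} [TopologicalSpace X] [T2Space X] [Group Γ] [MulAction Γ X]
  [NormedAddCommGroup E] [NormedSpace ℝ E] [FiniteDimensional ℝ E] [SecondCountableTopology X]
  {dev : X → E} {hol : Γ →* (E ≃ᵃ[ℝ] E)}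

/-- the directions with eigenvalues of modulus one are complete -/
theorem unit_chain (D : AffData X Γ E dev hol) {A B : E →L[ℝ] E} {C : ℝ} (h : Cy hol A B C)
    (hAB : A * B = 1) (hBA : B * A = 1) (q : ℝ[X]) : q ≠ 0 → OneMod q 1 → ∀ (x : X) (v : E), aeval A q v = 0 → Vis dev x v := by
  induction q using WfDvdMonoid.induction_on_irreducible with
  | zero => exact fun h => absurd rfl h
  | unit u hu =>
    intro _ _ x v hv
    obtain ⟨w, hw⟩ := hu.exists_left_inv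
    have h1 : aeval A w * aeval A u = (1 : E →L[ℝ] E) := by rw [← map_mul, hw, map_one]
    have h2 : (aeval A w * aeval A u) v = v := by rw [h1]; rfl
    have h3 : (aeval A w * aeval A u) v = aeval A w (aeval A u v) := rfl
    rw [h3, hv, map_zero] at h2
    rw [← h2]
    exact vis_zero D.loc x
  | mul q π hq0 hπ ih =>
    intro hne hone
    have hq1 : OneMod q 1 := fun μ hμ => hone μ (by rw [map_mul, hμ, mul_zero])
    have ih' := ih hq0 hq1
    obtain ⟨μ, hμ⟩ : ∃ μ : ℂ, aeval μ π = 0 :=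
      IsAlgClosed.exists_aeval_eq_zero ℂ π (ne_of_gt (degree_pos_of_irreducible hπ))
    have hμ1 : ‖μ‖ = 1 := hone μ (by rw [map_mul, hμ, zero_mul])
    have hint : IsIntegral ℝ μ := Algebra.IsIntegral.isIntegral μ
    have hdv : π ∣ minpoly ℝ μ := (minpoly.irreducible hint).dvd_symm hπ (minpoly.dvd ℝ μ hμ)
    have hg : π ∣ (Polynomial.X ^ 2 - Polynomial.C (2 * μ.re) * Polynomial.X + 1 : ℝ[X]) := by
      refine hdv.trans (minpoly.dvd ℝ μ ?_)
      have hns : μ.re * μ.re + μ.im * μ.im = 1 := by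
        rw [← Complex.normSq_apply, Complex.normSq_eq_norm_sq, hμ1, one_pow]
      simp only [map_add, map_sub, map_mul, map_pow, aeval_X, aeval_C, map_one]
      apply Complex.ext
      · simp [pow_two]
        nlinarith
      · simp [pow_two]
        ring
    have hl : μ.im = 0 → π ∣ (Polynomial.X - Polynomial.C μ.re : ℝ[X]) := by
      intro him
      refine hdv.trans (minpoly.dvd ℝ μ ?_)
      simp only [map_sub, aeval_X, aeval_C]
      apply Complex.ext
      · simp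
      · simp [him]
    obtain ⟨S, hS⟩ : ∃ S : Submodule ℝ E, S = LinearMap.ker ((aeval A q : E →L[ℝ] E) : E →ₗ[ℝ] E) :=
      ⟨_, rfl⟩
    obtain ⟨F, hF⟩ : ∃ F : Submodule ℝ E, F =
      LinearMap.ker ((aeval A (π * q) : E →L[ℝ] E) : E →ₗ[ℝ] E) := ⟨_, rfl⟩
    have mS : ∀ v, v ∈ S ↔ aeval A q v = 0 := by
      intro v; rw [hS]; exact LinearMap.mem_ker
    have mF : ∀ v, v ∈ F ↔ aeval A (π * q) v = 0 := by
      intro v; rw [hF]; exact LinearMap.mem_ker
    have hinv : ∀ L : E →L[ℝ] E, L * A = A * L → ∀ v ∈ S, L v ∈ S := by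
      intro L hL v hv
      rw [mS] at hv ⊢
      have h1 := comm_aeval hL q
      have h2 : aeval A q (L v) = (aeval A q * L) v := rfl
      rw [h2, ← h1]
      show L (aeval A q v) = 0
      rw [hv, map_zero]
    have hBA' : B * A = A * B := by rw [hAB, hBA]
    have hdvd : ∀ f : ℝ[X], π ∣ f → ∀ v ∈ F, aeval A f v ∈ S := by
      rintro f ⟨k, rfl⟩ v hv
      rw [mF] at hv
      rw [mS]
      have h1 : aeval A q (aeval A (π * k) v) = aeval A k (aeval A (π * q) v) := by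
        have h2 : q * (π * k) = k * (π * q) := by ring
        have h3 := congrArg (fun f => (aeval A f : E →L[ℝ] E) v) h2
        beta_reduce at h3
        rw [map_mul, map_mul _ k] at h3
        exact h3
      rw [h1, hv, map_zero]
    have hA2 : ∀ v ∈ F, A (A v) - (2 * μ.re) • A v + v ∈ S := by
      intro v hv
      have := hdvd _ hg v hv
      rw [map_add, map_sub, map_mul, map_pow, aeval_X, aeval_C, map_one, pow_two,
        Algebra.algebraMap_eq_smul_one, smul_mul_assoc, one_mul] at this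
      exact this
    have hA1 : μ.im = 0 → ∀ v ∈ F, A v - μ.re • v ∈ S := by
      intro him v hv
      have := hdvd _ (hl him) v hv
      rw [map_sub, aeval_X, aeval_C, Algebra.algebraMap_eq_smul_one] at this
      exact this
    have hBAv : ∀ v, B (A v) = v := fun v => congrArg (fun f : E →L[ℝ] E => f v) hBA
    have hB2 : ∀ v ∈ F, B (B v) - (2 * μ.re) • B v + v ∈ S := by
      intro v hv
      have h1 := hinv B hBA' _ (hinv B hBA' _ (hA2 v hv))
      convert h1 using 1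
      rw [map_add, map_add, map_sub, map_sub, map_smul, map_smul, hBAv, hBAv]
      abel
    have hB1 : μ.im = 0 → ∀ v ∈ F, B v - μ.re • v ∈ S := by
      intro him v hv
      have h1 := hinv B hBA' _ (hA1 him v hv)
      rw [map_sub, map_smul, hBAv] at h1
      have hre : μ.re * μ.re = 1 := by
        have h2 : |μ.re| = 1 := by
          rw [Complex.abs_re_eq_norm.2 him, hμ1]
        rw [← abs_mul_abs_self, h2, one_mul]
      have h2 := S.smul_mem (-μ.re) h1
      convert h2 using 1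
      rw [smul_sub, smul_smul, neg_mul, hre]
      module
    obtain ⟨C1, hC1⟩ := pow_bdd (hinv A rfl) hμ1 hA2 hA1
    obtain ⟨C2, hC2⟩ := pow_bdd (hinv B hBA') hμ1 hB2 hB1
    have hstep := chain_step D (S := S) (F := F) (fun x v hv => ih' x v ((mS v).1 hv))
      ⟨|C| * (|C1| + |C2|), fun γ v hv => by
        obtain ⟨b, b', m, h1, h2, c1, c2, h3⟩ := h γ
        have key : ∀ (L : E →L[ℝ] E) (C' : ℝ), C' ≤ |C1| + |C2| →
            (∃ w ∈ S, ‖(L ^ m) v - w‖ ≤ C' * ‖v‖) →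
            ∃ w ∈ S, ‖b ((L ^ m) v) - w‖ ≤ |C| * (|C1| + |C2|) * ‖v‖ := by
          rintro L C' hC' ⟨w, hw, hwv⟩
          refine ⟨b w, hinv b c1 w hw, ?_⟩
          rw [← map_sub]
          calc _ ≤ C * ‖(L ^ m) v - w‖ := h1 _
            _ ≤ |C| * ‖(L ^ m) v - w‖ :=
              mul_le_mul_of_nonneg_right (le_abs_self C) (norm_nonneg _)
            _ ≤ |C| * (C' * ‖v‖) := by gcongr
            _ ≤ |C| * ((|C1| + |C2|) * ‖v‖) := by gcongr
            _ = _ := by ring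
        have n1 := le_abs_self C1
        have n2 := le_abs_self C2
        have n3 := abs_nonneg C1
        have n4 := abs_nonneg C2
        rcases h3 with h3 | h3
        · rw [h3.1]
          exact key A C1 (by linarith) (hC1 m v hv)
        · rw [h3.1]
          exact key B C2 (by linarith) (hC2 m v hv)⟩
    intro x v hv
    exact hstep x v ((mF v).2 hv)

/-- linear holonomy at bounded distance from a cyclic group -/
theorem cyc_complete [ConnectedSpace X] (D : AffData X Γ E dev hol) (T : E ≃ₗ[ℝ] E)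
    (hcomm : ∀ (γ : Γ) (v : E), (hol γ).linear (T v) = T ((hol γ).linear v)) {C : ℝ}
    (hC : ∀ γ : Γ, ∃ n : ℤ, ∀ v : E, ‖(T ^ n) ((hol γ).linear v)‖ ≤ C * ‖v‖ ∧
      ‖v‖ ≤ C * ‖(T ^ n) ((hol γ).linear v)‖) : IsHomeomorph dev := by
  obtain ⟨A, hA⟩ : ∃ A : E →L[ℝ] E, A = LinearMap.toContinuousLinearMap (T : E →ₗ[ℝ] E) := ⟨_, rfl⟩
  obtain ⟨B, hB⟩ : ∃ B : E →L[ℝ] E, B = LinearMap.toContinuousLinearMap (T⁻¹ : E ≃ₗ[ℝ] E).toLinearMap :=
    ⟨_, rfl⟩
  have hAv : ∀ v, A v = T v := fun v => by rw [hA]; rfl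
  have hBv : ∀ v, B v = T⁻¹ v := fun v => by rw [hB]; rfl
  have hAB : A * B = 1 := by
    refine ContinuousLinearMap.ext fun v => ?_
    show A (B v) = v
    rw [hAv, hBv]
    exact T.apply_symm_apply v
  have hBA : B * A = 1 := by
    refine ContinuousLinearMap.ext fun v => ?_
    show B (A v) = v
    rw [hAv, hBv]
    exact T.symm_apply_apply v
  have hApow : ∀ (m : ℕ) v, (A ^ m) v = (T ^ m) v := by
    intro m
    induction m with
    | zero => intro v; rfl
    | succ m ih =>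
      intro v
      rw [pow_succ', pow_succ']
      show A ((A ^ m) v) = T ((T ^ m) v)
      rw [ih, hAv]
  have hBpow : ∀ (m : ℕ) v, (B ^ m) v = (T⁻¹ ^ m) v := by
    intro m
    induction m with
    | zero => intro v; rfl
    | succ m ih =>
      intro v
      rw [pow_succ', pow_succ']
      show B ((B ^ m) v) = T⁻¹ ((T⁻¹ ^ m) v)
      rw [ih, hBv]
  have hcA : ∀ γ : Γ, cl hol γ * A = A * cl hol γ := by
    intro γ
    refine ContinuousLinearMap.ext fun v => ?_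
    show lin hol γ (A v) = A (lin hol γ v)
    rw [hAv, hAv]
    exact hcomm γ v
  have hCy : Cy hol A B C := by
    intro γ
    obtain ⟨n, hn⟩ := hC γ
    obtain ⟨b, hb⟩ : ∃ b : E →L[ℝ] E, ∀ v, b v = (T ^ n) (lin hol γ v) :=
      ⟨LinearMap.toContinuousLinearMap ((T ^ n : E ≃ₗ[ℝ] E).toLinearMap.comp (hol γ).linear.toLinearMap),
        fun v => rfl⟩
    obtain ⟨b', hb'⟩ : ∃ b' : E →L[ℝ] E, ∀ v, b' v = lin hol γ⁻¹ ((T ^ (-n)) v) :=
      ⟨LinearMap.toContinuousLinearMap ((hol γ⁻¹).linear.toLinearMap.comp (T ^ (-n) : E ≃ₗ[ℝ] E).toLinearMap),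
        fun v => rfl⟩
    have hz : ∀ (i j : ℤ) v, (T ^ i) ((T ^ j) v) = (T ^ (i + j)) v := by
      intro i j v
      rw [zpow_add]
      rfl
    have hz0 : ∀ v, (T ^ (0 : ℤ)) v = v := fun v => by rw [zpow_zero]; rfl
    have hbb' : ∀ v, b (b' v) = v := by
      intro v
      rw [hb, hb', lin_apply_inv, hz, add_neg_cancel, hz0]
    have hTc : ∀ (i : ℤ) v, lin hol γ ((T ^ i) v) = (T ^ i) (lin hol γ v) := by
      have h1 : ∀ (i : ℕ) v, lin hol γ ((T ^ i) v) = (T ^ i) (lin hol γ v) := by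
        intro i
        induction i with
        | zero => intro v; rfl
        | succ i ih =>
          intro v
          rw [pow_succ']
          show lin hol γ (T ((T ^ i) v)) = T ((T ^ i) (lin hol γ v))
          rw [← ih]
          exact hcomm γ _
      intro i v
      rcases Int.eq_nat_or_neg i with ⟨m, hm⟩
      rcases hm with hm | hm
      · rw [hm, zpow_natCast]
        exact h1 m v
      · have h2 := h1 m ((T ^ i) v)
        have h3 : (T ^ m) ((T ^ i) v) = v := by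
          rw [← zpow_natCast, hz, hm, add_neg_cancel, hz0]
        rw [h3] at h2
        rw [h2, ← zpow_natCast, hz, hm, neg_add_cancel, hz0]
    have hcb : b * A = A * b := by
      refine ContinuousLinearMap.ext fun v => ?_
      show b (A v) = A (b v)
      rw [hb, hb, hAv, hAv]
      have h1 : lin hol γ (T v) = T (lin hol γ v) := hcomm γ v
      rw [h1]
      have h2 := hz n 1 (lin hol γ v)
      have h3 := hz 1 n (lin hol γ v)
      rw [zpow_one] at h2 h3
      rw [h2, h3, add_comm]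
    have hcb' : b' * A = A * b' := by
      refine ContinuousLinearMap.ext fun v => ?_
      show b' (A v) = A (b' v)
      have hinj : Function.Injective b := by
        intro x y hxy
        rw [hb, hb] at hxy
        have h1 := (T ^ n : E ≃ₗ[ℝ] E).injective hxy
        exact (hol γ).linear.injective h1
      apply hinj
      rw [hbb']
      have h1 : b (A (b' v)) = A (b (b' v)) := congrArg (fun L : E →L[ℝ] E => L (b' v)) hcb
      rw [h1, hbb']
    have hbn : ∀ v, ‖b v‖ ≤ C * ‖v‖ := fun v => by rw [hb]; exact (hn v).1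
    have hbn' : ∀ v, ‖b' v‖ ≤ C * ‖v‖ := by
      intro v
      have h1 := (hn (b' v)).2
      have h2 : (T ^ n) ((hol γ).linear (b' v)) = v := by
        have h3 := hbb' v
        rwa [hb] at h3
      rwa [h2] at h1
    have e1 : ∀ v, lin hol γ v = b ((T ^ (-n)) v) := by
      intro v
      rw [hb, hTc, hz, add_neg_cancel, hz0]
    have e2 : ∀ v, lin hol γ⁻¹ v = (T ^ n) (b' v) := by
      intro v
      have hinj : Function.Injective (lin hol γ) := (hol γ).linear.injective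
      apply hinj
      rw [lin_apply_inv, hTc, ← hb, hbb']
    rcases Int.eq_nat_or_neg n with ⟨m, hm⟩
    rcases hm with hm | hm
    · refine ⟨b, b', m, hbn, hbn', hcb, hcb', Or.inr ⟨fun v => ?_, fun v => ?_⟩⟩
      · rw [e1, hBpow, hm, zpow_neg, zpow_natCast, inv_pow]
      · rw [e2, hApow, hm, zpow_natCast]
    · refine ⟨b, b', m, hbn, hbn', hcb, hcb', Or.inl ⟨fun v => ?_, fun v => ?_⟩⟩
      · rw [e1, hApow, hm, neg_neg, zpow_natCast]
      · rw [e2, hBpow, hm, zpow_neg, zpow_natCast, inv_pow]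
  obtain ⟨fu, fs, Pc, q, s1, s2, s3, s4, s5, s6, s7, s8⟩ := spec A B hAB hBA
  obtain ⟨V, hV⟩ : ∃ V : Submodule ℝ E, V = LinearMap.range ((aeval A fu : E →L[ℝ] E) : E →ₗ[ℝ] E) :=
    ⟨_, rfl⟩
  obtain ⟨W, hW⟩ : ∃ W : Submodule ℝ E, W = LinearMap.range ((aeval A fs : E →L[ℝ] E) : E →ₗ[ℝ] E) :=
    ⟨_, rfl⟩
  obtain ⟨S, hS⟩ : ∃ S : Submodule ℝ E, S = LinearMap.ker ((aeval A q : E →L[ℝ] E) : E →ₗ[ℝ] E) :=
    ⟨_, rfl⟩
  have iR : ∀ (f : ℝ[X]) (b : E →L[ℝ] E), b * A = A * b →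
      ∀ v ∈ LinearMap.range ((aeval A f : E →L[ℝ] E) : E →ₗ[ℝ] E),
      b v ∈ LinearMap.range ((aeval A f : E →L[ℝ] E) : E →ₗ[ℝ] E) := by
    rintro f b hb _ ⟨v, rfl⟩
    refine ⟨b v, ?_⟩
    have h1 := comm_aeval hb f
    have h2 := congrArg (fun L : E →L[ℝ] E => L v) h1
    exact h2.symm
  have fR : ∀ (f : ℝ[X]), (aeval A f : E →L[ℝ] E) * aeval A f = aeval A f →
      ∀ v ∈ LinearMap.range ((aeval A f : E →L[ℝ] E) : E →ₗ[ℝ] E), (aeval A f : E →L[ℝ] E) v = v := by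
    rintro f hf _ ⟨v, rfl⟩
    exact congrArg (fun L : E →L[ℝ] E => L v) hf
  refine dom_complete D (V := V) (W := W) (S := S) ?_ ?_ ?_ ?_ ?_ ?_ ?_ ?_
  · rw [eq_top_iff]
    intro v _
    have h1 : v = aeval A fu v + (aeval A fs v + Pc v) :=
      (congrArg (fun L : E →L[ℝ] E => L v) s1).symm
    rw [h1]
    refine Submodule.add_mem_sup ?_ (Submodule.add_mem_sup ?_ ?_)
    · rw [hV]; exact ⟨v, rfl⟩
    · rw [hW]; exact ⟨v, rfl⟩
    · rw [hS]; exact congrArg (fun L : E →L[ℝ] E => L v) s8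
  · rw [hV]; exact fun γ => iR fu _ (hcA γ)
  · rw [hW]; exact fun γ => iR fs _ (hcA γ)
  · intro γ v hv
    rw [hS, LinearMap.mem_ker] at hv ⊢
    have h1 := comm_aeval (hcA γ) q
    have h2 := congrArg (fun L : E →L[ℝ] E => L v) h1
    have h3 : (aeval A q : E →L[ℝ] E) (lin hol γ v) = lin hol γ ((aeval A q : E →L[ℝ] E) v) := h2.symm
    show (aeval A q : E →L[ℝ] E) (lin hol γ v) = 0
    have hv' : (aeval A q : E →L[ℝ] E) v = 0 := hv
    rw [h3, hv']
    exact (hol γ).linear.map_zero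
  · exact hCy.dm (V := V) (W := W) (by rw [hV]; exact fR fu s2) s4 (by rw [hW]; exact fR fs s3) s5
  · exact hCy.ep (V := V) (by rw [hV]; exact fR fu s2) (by rw [hV]; exact iR fu) s4
  · refine (hCy.symm hAB hBA).ep (V := W) (by rw [hW]; exact fR fs s3) (fun b hb => ?_) s5
    rw [hW]
    exact iR fs b (inv_comm hBA hAB hb)
  · intro x v hv
    rw [hS] at hv
    exact unit_chain D hCy hAB hBA q s6 s7 x v hv

end

end Pool.Agent.Y449.MK
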