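import Pool.Agent.TH569.MK.Chain

/-!
Affine manifolds: the exponential map as a partial function of both variables.
-/

set_option autoImplicit false

open Set Filter Topology Metric

namespace Pool.Agent.Y449.MK

open Pool.Agent.W689.Mk Pool.Agent.TH569.MK

section
variable {X E : Type} [TopologicalSpace X] [T2Space X] [NormedAddCommGroup E] [NormedSpace ℝ E]
  {dev : X → E}

/-- the vector `v` is visible from `x` -/
def Vis (dev : X → E) (x : X) (v : E) : Prop := ∃ y, Ex dev x v y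

open Classical in
/-- the end point of the geodesic with initial velocity `v` -/
noncomputable def pt (dev : X → E) (x : X) (v : E) : X := if h : ∃ y, Ex dev x v y then h.choose else x

omit [T2Space X] in
theorem pt_spec {x : X} {v : E} (h : Vis dev x v) : Ex dev x v (pt dev x v) := by
  have h' : ∃ y, Ex dev x v y := h
  have : pt dev x v = h'.choose := dif_pos h'
  rw [this]
  exact h'.choose_spec

omit [T2Space X] in
theorem Ex.vis {x : X} {v : E} {y : X} (h : Ex dev x v y) : Vis dev x v := ⟨y, h⟩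

theorem Ex.pt (hloc : IsLocalHomeomorph dev) {x : X} {v : E} {y : X} (h : Ex dev x v y) :
    pt dev x v = y := (pt_spec ⟨y, h⟩).unique hloc h

/-- the exponential map is defined on an open set and is continuous -/
theorem ex_nhds (hloc : IsLocalHomeomorph dev) {y0 : X} {g0 : E} {c0 : X} (h : Ex dev y0 g0 c0) :
    ∃ τ : X × E → X, ContinuousAt τ (y0, g0) ∧ τ (y0, g0) = c0 ∧
      ∀ᶠ p in 𝓝 (y0, g0), Ex dev p.1 p.2 (τ p) := by
  obtain ⟨U', τ, g1, g2, g3, g4, g5⟩ := h
  have k1 : τ '' U' ∈ 𝓝 y0 :=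
    (g1.isOpen_image hloc g1.isOpen Subset.rfl).mem_nhds ⟨_, g2, g3⟩
  have k2 : ∀ᶠ p : X × E in 𝓝 (y0, g0), p.1 ∈ τ '' U' := continuous_fst.continuousAt k1
  have kc : ContinuousAt (fun p : X × E => dev p.1 + p.2) (y0, g0) :=
    ((hloc.continuous.comp continuous_fst).add continuous_snd).continuousAt
  have k4 : ∀ᶠ p : X × E in 𝓝 (y0, g0), dev p.1 + p.2 ∈ U' := kc (g1.isOpen.mem_nhds g4)
  have k5 : ContinuousAt τ (dev y0 + g0) := (g1.cont _ g4).continuousAt (g1.isOpen.mem_nhds g4)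
  refine ⟨fun p => τ (dev p.1 + p.2), ContinuousAt.comp (f := fun p : X × E => dev p.1 + p.2) k5 kc,
    g5, ?_⟩
  filter_upwards [k2, k4] with p hp1 hp2
  obtain ⟨q, hq, hqt⟩ := hp1
  have e1 : dev p.1 = q := by rw [← hqt]; exact g1.inv q hq
  exact ⟨U', τ, g1, by rw [e1]; exact hq, by rw [e1]; exact hqt, hp2, rfl⟩

theorem vis_ev (hloc : IsLocalHomeomorph dev) {y0 : X} {g0 : E} (h : Vis dev y0 g0) :
    ∀ᶠ p in 𝓝 (y0, g0), Vis dev p.1 p.2 := by
  obtain ⟨c0, h⟩ := h
  obtain ⟨τ, -, -, h3⟩ := ex_nhds hloc h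
  exact h3.mono fun p hp => ⟨_, hp⟩

/-- visibility along a filter -/
theorem vis_tendsto (hloc : IsLocalHomeomorph dev) {ι : Type} {F : Filter ι} {Y : ι → X} {g : ι → E}
    {y0 : X} {g0 : E} (hY : Tendsto Y F (𝓝 y0)) (hg : Tendsto g F (𝓝 g0)) (h : Vis dev y0 g0) :
    ∀ᶠ i in F, Vis dev (Y i) (g i) :=
  (hY.prodMk_nhds hg).eventually (vis_ev hloc h)

/-- continuity of the exponential map along a filter -/
theorem pt_tendsto (hloc : IsLocalHomeomorph dev) {ι : Type} {F : Filter ι} {Y : ι → X} {g : ι → E}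
    {y0 : X} {g0 : E} (hY : Tendsto Y F (𝓝 y0)) (hg : Tendsto g F (𝓝 g0)) (h : Vis dev y0 g0) :
    Tendsto (fun i => pt dev (Y i) (g i)) F (𝓝 (pt dev y0 g0)) := by
  obtain ⟨τ, h1, h2, h3⟩ := ex_nhds hloc (pt_spec h)
  have h4 := hY.prodMk_nhds hg
  have h5 : Tendsto (fun i => τ (Y i, g i)) F (𝓝 (τ (y0, g0))) := h1.tendsto.comp h4
  rw [h2] at h5
  refine h5.congr' ?_
  filter_upwards [h4.eventually h3] with i hi
  exact (Ex.pt hloc hi).symm

theorem vis_zero (hloc : IsLocalHomeomorph dev) (x : X) : Vis dev x 0 := ⟨x, ex_zero hloc x⟩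

theorem pt_zero (hloc : IsLocalHomeomorph dev) (x : X) : pt dev x 0 = x := Ex.pt hloc (ex_zero hloc x)

theorem vis_smul {x : X} {v : E} (h : Vis dev x v) {t : ℝ} (ht : 0 ≤ t) (ht1 : t ≤ 1) :
    Vis dev x (t • v) := by
  obtain ⟨y, h⟩ := h
  exact ex_smul h ht ht1

/-- a lift of a segment is given by the exponential map -/
theorem geod_end (hloc : IsLocalHomeomorph dev) {x : X} {v : E} {c : ℝ → X}
    (hc : ContinuousOn c (Icc 0 1)) (h0 : c 0 = x)
    (hd : ∀ t ∈ Icc (0 : ℝ) 1, dev (c t) = dev x + t • v) : Ex dev x v (c 1) := by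
  obtain ⟨y, U, σ, h1, h2, h3, h4, h5⟩ := Geod.ex hloc (v := v) ⟨c, hc, h0, hd⟩
  have hm : ∀ t ∈ Icc (0 : ℝ) 1, dev x + t • v ∈ U := by
    intro t ht
    have := h1.convex h2 h4 (a := 1 - t) (b := t) (by linarith [ht.2]) ht.1 (by ring)
    convert this using 1
    rw [smul_add, ← add_assoc, ← add_smul]
    simp
  have hsep : IsSeparatedMap dev := T2Space.isSeparatedMap dev
  have hinj : IsLocallyInjective dev := hloc.isLocallyInjective
  have hcσ : ContinuousOn (fun t : ℝ => σ (dev x + t • v)) (Icc 0 1) :=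
    h1.cont.comp (continuous_const.add (continuous_id.smul continuous_const)).continuousOn hm
  have heq : EqOn (dev ∘ c) (dev ∘ fun t : ℝ => σ (dev x + t • v)) (Icc 0 1) := by
    intro t ht
    show dev (c t) = dev (σ (dev x + t • v))
    rw [hd t ht, h1.inv _ (hm t ht)]
  have h6 := hsep.eqOn_of_comp_eqOn hinj isPreconnected_Icc hc hcσ heq
    (a := 0) ⟨le_rfl, zero_le_one⟩ (by
      show c 0 = σ (dev x + (0 : ℝ) • v)
      rw [zero_smul, add_zero, h3, h0])
  have h7 := h6 (show (1 : ℝ) ∈ Icc (0 : ℝ) 1 from ⟨zero_le_one, le_rfl⟩)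
  refine ⟨U, σ, h1, h2, h3, h4, ?_⟩
  rw [h7]
  beta_reduce
  rw [one_smul]

/-- moving along a seen vector -/
theorem pt_shift (hloc : IsLocalHomeomorph dev) {x : X} {v : E} (h : Vis dev x v) {s t : ℝ}
    (hs : s ∈ Icc (0 : ℝ) 1) (ht : t ∈ Icc (0 : ℝ) 1) :
    Ex dev (pt dev x (s • v)) ((t - s) • v) (pt dev x (t • v)) := by
  obtain ⟨y, U, σ, h1, h2, h3, h4, h5⟩ := h
  have hm : ∀ t ∈ Icc (0 : ℝ) 1, dev x + t • v ∈ U := by
    intro t ht
    have := h1.convex h2 h4 (a := 1 - t) (b := t) (by linarith [ht.2]) ht.1 (by ring)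
    convert this using 1
    rw [smul_add, ← add_assoc, ← add_smul]
    simp
  have h6 : ∀ t ∈ Icc (0 : ℝ) 1, pt dev x (t • v) = σ (dev x + t • v) := fun t ht =>
    Ex.pt hloc ⟨U, σ, h1, h2, h3, hm t ht, rfl⟩
  rw [h6 s hs, h6 t ht]
  have h7 : dev x + t • v = dev x + s • v + (t - s) • v := by
    rw [add_assoc, ← add_smul, add_sub_cancel]
  rw [h7]
  exact h1.Ex (hm s hs) (by rw [← h7]; exact hm t ht)

/-- parallelograms -/
theorem par (hloc : IsLocalHomeomorph dev) {x y : X} {u w : E} (hu : Ex dev x u y)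
    (hw : ∀ t ∈ Icc (0 : ℝ) 1, Vis dev (pt dev x (t • u)) w) :
    Ex dev (pt dev x w) u (pt dev y w) := by
  have hv : Vis dev x u := ⟨y, hu⟩
  have e0 : pt dev x ((0 : ℝ) • u) = x := by rw [zero_smul]; exact pt_zero hloc x
  have e1 : pt dev x ((1 : ℝ) • u) = y := by rw [one_smul]; exact Ex.pt hloc hu
  have key : Ex dev (pt dev x w) u ((fun t : ℝ => pt dev (pt dev x (t • u)) w) 1) := by
    refine geod_end hloc (c := fun t => pt dev (pt dev x (t • u)) w) ?_ ?_ ?_
    · intro t0 ht0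
      refine pt_tendsto hloc ?_ tendsto_const_nhds (hw t0 ht0)
      refine pt_tendsto hloc tendsto_const_nhds ?_ (vis_smul hv ht0.1 ht0.2)
      exact (continuous_id.smul continuous_const).continuousWithinAt
    · beta_reduce
      rw [e0]
    · intro t ht
      beta_reduce
      rw [(pt_spec (hw t ht)).dev_eq, (pt_spec (vis_smul hv ht.1 ht.2)).dev_eq]
      have := hw 0 ⟨le_rfl, zero_le_one⟩
      rw [e0] at this
      rw [(pt_spec this).dev_eq]
      abel
  beta_reduce at key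
  rwa [e1] at key

/-- a triangle all of whose third side is seen -/
theorem tri (hloc : IsLocalHomeomorph dev) {x y : X} {a u : E} (hx : Ex dev y a x)
    (hu : ∀ t ∈ Icc (0 : ℝ) 1, Vis dev y (a + t • u)) : Ex dev x u (pt dev y (a + u)) := by
  have key : Ex dev x u ((fun t : ℝ => pt dev y (a + t • u)) 1) := by
    refine geod_end hloc (c := fun t => pt dev y (a + t • u)) ?_ ?_ ?_
    · intro t0 ht0
      refine pt_tendsto hloc tendsto_const_nhds ?_ (hu t0 ht0)
      exact (continuous_const.add (continuous_id.smul continuous_const)).continuousWithinAt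
    · beta_reduce
      rw [zero_smul, add_zero]
      exact Ex.pt hloc hx
    · intro t ht
      beta_reduce
      rw [(pt_spec (hu t ht)).dev_eq, hx.dev_eq]
      abel
  beta_reduce at key
  rwa [one_smul] at key

/-- `u` is a first unseen vector -/
def FU (dev : X → E) (x : X) (u : E) : Prop :=
  ¬ Vis dev x u ∧ ∀ t : ℝ, 0 ≤ t → t < 1 → Vis dev x (t • u)

theorem exists_FU (hloc : IsLocalHomeomorph dev) {x : X} {v : E} (hv : ¬ Vis dev x v) :
    ∃ s : ℝ, 0 < s ∧ s ≤ 1 ∧ FU dev x (s • v) := by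
  obtain ⟨s, h1, h2, h3, h4⟩ := first_unseen hloc (x := x) (v := v) hv
  exact ⟨s, h1, h2, h3, h4⟩

end

end Pool.Agent.Y449.MK
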