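import Pool.Agent.Y449.MK.Dom1

/-!
Affine manifolds with a dominated splitting of the linear holonomy: walls are saturated.
-/

set_option autoImplicit false

open Set Filter Topology Metric

namespace Pool.Agent.Y449.MK

open Pool.Agent.W689.Mk Pool.Agent.TH569.MK

section
variable {X Γ E : Type} [TopologicalSpace X] [T2Space X] [Group Γ] [MulAction Γ X]
  [NormedAddCommGroup E] [NormedSpace ℝ E] [FiniteDimensional ℝ E] [SecondCountableTopology X]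
  {dev : X → E} {hol : Γ →* (E ≃ᵃ[ℝ] E)}

/-- where the linear holonomy is large on `V` it is small on `W` -/
def Dm (hol : Γ →* (E ≃ᵃ[ℝ] E)) (V W : Submodule ℝ E) : Prop :=
  ∀ ε : ℝ, 0 < ε → ∃ R : ℝ, ∀ γ : Γ, (∃ v ∈ V, R * ‖v‖ < ‖(hol γ).linear v‖) →
    ∀ w ∈ W, ‖(hol γ).linear w‖ ≤ ε * ‖w‖

omit [TopologicalSpace X] [T2Space X] [MulAction Γ X] [FiniteDimensional ℝ E] [SecondCountableTopology X] in
theorem lin_apply_inv (γ : Γ) (v : E) : lin hol γ (lin hol γ⁻¹ v) = v := by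
  have := lin_inv_apply (hol := hol) γ⁻¹ v
  rwa [inv_inv] at this

theorem ex_back (D : AffData X Γ E dev hol) {γ : Γ} {κ y : X} {v : E} (h : γ • κ = y)
    (hv : Vis dev κ (lin hol γ⁻¹ v)) : Ex dev y v (γ • pt dev κ (lin hol γ⁻¹ v)) := by
  have h1 := D.Ex_smul γ (pt_spec hv)
  rwa [h, lin_apply_inv] at h1

/-- approaching a first unseen vector, the holonomy blows up -/
theorem blow (D : AffData X Γ E dev hol) {y : X} {u : E} (hFU : FU dev y u) {t : ℕ → ℝ}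
    (ht0 : ∀ k, 0 ≤ t k) (ht1 : ∀ k, t k < 1) (htl : Tendsto t atTop (𝓝 1)) :
    ∃ (φ : ℕ → ℕ) (γ : ℕ → Γ) (κ : ℕ → X) (z : X), StrictMono φ ∧ Tendsto κ atTop (𝓝 z) ∧
      (∀ k, γ k • κ k = pt dev y (t (φ k) • u)) ∧
      Tendsto (fun k => ‖lin hol (γ k)⁻¹ u‖) atTop atTop := by
  obtain ⟨K, hK, hKc⟩ := D.cc
  choose γ' κ' hκ hγ' using fun k => hKc (pt dev y (t k • u))
  obtain ⟨z, -, φ, hφ, hzl⟩ := hK.tendsto_subseq hκ
  refine ⟨φ, γ' ∘ φ, κ' ∘ φ, z, hφ, hzl, fun k => hγ' _, ?_⟩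
  rw [Filter.tendsto_atTop]
  intro R
  obtain ⟨r, hr, N, hN, HN⟩ := local_ball D.loc (S := (⊥ : Submodule ℝ E)) (fun x v hv => by
    rw [Submodule.mem_bot] at hv
    rw [hv]
    exact ⟨x, ex_zero D.loc x⟩) z
  have h1 : ∀ᶠ k in atTop, κ' (φ k) ∈ N := hzl.eventually_mem hN
  have h2 : ∀ᶠ k in atTop, (1 - t (φ k)) * |R| < r := by
    have h3 : Tendsto (fun k => (1 - t (φ k)) * |R|) atTop (𝓝 ((1 - 1) * |R|)) :=
      ((tendsto_const_nhds (x := (1 : ℝ))).sub (htl.comp hφ.tendsto_atTop)).mul_const _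
    rw [sub_self, zero_mul] at h3
    exact h3.eventually_lt_const hr
  filter_upwards [h1, h2] with k k1 k2
  by_contra hcon
  push Not at hcon
  apply hFU.1
  have h1t : 0 ≤ 1 - t (φ k) := by linarith [ht1 (φ k)]
  have h3 : Vis dev (κ' (φ k)) ((1 - t (φ k)) • lin hol (γ' (φ k))⁻¹ u) := by
    refine HN _ k1 _ 0 (Submodule.zero_mem _) ?_
    rw [sub_zero, norm_smul, Real.norm_eq_abs, abs_of_nonneg h1t]
    refine lt_of_le_of_lt (mul_le_mul_of_nonneg_left ?_ h1t) k2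
    exact le_trans (le_of_lt hcon) (le_abs_self R)
  rw [← lin_smul] at h3
  have h4 := ex_back D (hγ' (φ k)) h3
  exact ex_line D.loc (ht0 _) (ht1 _).le (pt_spec (hFU.2 _ (ht0 _) (ht1 _))) ⟨_, h4⟩

theorem dm_tendsto {V W : Submodule ℝ E} (hD : Dm hol V W) {u w : E} (hu : u ∈ V) (hw : w ∈ W)
    {γ : ℕ → Γ} (hγ : Tendsto (fun k => ‖lin hol (γ k)⁻¹ u‖) atTop atTop) :
    Tendsto (fun k => lin hol (γ k)⁻¹ w) atTop (𝓝 0) := by
  rw [Metric.tendsto_nhds]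
  intro ε hε
  obtain ⟨R, hR⟩ := hD (ε / (2 * (‖w‖ + 1))) (by positivity)
  filter_upwards [hγ.eventually_gt_atTop (R * ‖u‖)] with k hk
  have h1 := hR _ ⟨u, hu, hk⟩ w hw
  rw [dist_zero_right]
  refine lt_of_le_of_lt h1 ?_
  have h2 : 0 ≤ ‖w‖ := norm_nonneg w
  rw [div_mul_eq_mul_div, div_lt_iff₀ (by positivity)]
  nlinarith

theorem seq_vis (D : AffData X Γ E dev hol) {V W : Submodule ℝ E} (hD : Dm hol V W) {y : X}
    {u w : E} (hu : u ∈ V) (hw : w ∈ W) (hFU : FU dev y u) {t h : ℕ → ℝ}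
    (ht0 : ∀ k, 0 ≤ t k) (ht1 : ∀ k, t k < 1) (htl : Tendsto t atTop (𝓝 1)) {H : ℝ}
    (hH : ∀ k, |h k| ≤ H) : ∃ k, Vis dev (pt dev y (t k • u)) (h k • w) := by
  obtain ⟨φ, γ, κ, z, hφ, hκ, hγκ, hγ⟩ := blow D hFU ht0 ht1 htl
  have h1 := dm_tendsto hD hu hw hγ
  have h2 : Tendsto (fun k => h (φ k) • lin hol (γ k)⁻¹ w) atTop (𝓝 0) := by
    rw [tendsto_zero_iff_norm_tendsto_zero] at h1 ⊢
    refine squeeze_zero (fun _ => norm_nonneg _) (fun k => ?_) (g := fun k => H * ‖lin hol (γ k)⁻¹ w‖) ?_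
    · rw [norm_smul]
      exact mul_le_mul_of_nonneg_right (hH _) (norm_nonneg _)
    · have := h1.const_mul H
      rwa [mul_zero] at this
  obtain ⟨k, hk⟩ := (vis_tendsto D.loc hκ h2 (vis_zero D.loc z)).exists
  rw [← lin_smul] at hk
  exact ⟨φ k, _, ex_back D (hγκ k) hk⟩

theorem f2 (D : AffData X Γ E dev hol) {V W : Submodule ℝ E} (hD : Dm hol V W) {y : X}
    {u w : E} (hu : u ∈ V) (hw : w ∈ W) (hFU : FU dev y u) (H : ℝ) :
    ∃ t0 : ℝ, 0 ≤ t0 ∧ t0 < 1 ∧ ∀ t : ℝ, t0 ≤ t → t < 1 → ∀ h : ℝ, |h| ≤ H →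
      Vis dev (pt dev y (t • u)) (h • w) := by
  by_contra hcon
  push Not at hcon
  have hq : ∀ k : ℕ, 0 ≤ 1 - 1 / ((k : ℝ) + 1) ∧ 1 - 1 / ((k : ℝ) + 1) < 1 := by
    intro k
    have h1 : (0 : ℝ) < (k : ℝ) + 1 := by positivity
    have h2 : 1 / ((k : ℝ) + 1) ≤ 1 := by
      rw [div_le_one h1]
      have : (0 : ℝ) ≤ k := Nat.cast_nonneg k
      linarith
    have h3 : 0 < 1 / ((k : ℝ) + 1) := by positivity
    constructor <;> linarith
  choose t ht h1t h hh hv using fun k : ℕ => hcon _ (hq k).1 (hq k).2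
  have htl : Tendsto t atTop (𝓝 1) := by
    have h3 : Tendsto (fun k : ℕ => 1 - 1 / ((k : ℝ) + 1)) atTop (𝓝 (1 - 0)) :=
      tendsto_const_nhds.sub tendsto_one_div_add_atTop_nhds_zero_nat
    rw [sub_zero] at h3
    exact tendsto_of_tendsto_of_tendsto_of_le_of_le h3 tendsto_const_nhds ht fun k => (h1t k).le
  obtain ⟨k, hk⟩ := seq_vis D hD hu hw hFU (fun k => (hq k).1.trans (ht k)) h1t htl hh
  exact hv k hk

theorem f1 (D : AffData X Γ E dev hol) {V W : Submodule ℝ E} (hD : Dm hol V W) {y : X}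
    {u w : E} (hu : u ∈ V) (hw : w ∈ W) (hFU : FU dev y u) :
    ∃ ε : ℝ, 0 < ε ∧ ∀ h : ℝ, |h| ≤ ε → ∀ t : ℝ, 0 ≤ t → t < 1 →
      Vis dev (pt dev y (t • u)) (h • w) := by
  by_contra hcon
  push Not at hcon
  choose h hh t ht0 ht1 hv using fun k : ℕ => hcon (1 / ((k : ℝ) + 1)) (by positivity)
  obtain ⟨a, ha, φ, hφ, hl⟩ := isCompact_Icc.tendsto_subseq
    (x := t) (s := Icc (0 : ℝ) 1) (fun k => ⟨ht0 k, (ht1 k).le⟩)
  have hh1 : ∀ k, |h k| ≤ 1 := by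
    intro k
    refine (hh k).trans ?_
    have h1 : (0 : ℝ) < (k : ℝ) + 1 := by positivity
    rw [div_le_one h1]
    have : (0 : ℝ) ≤ k := Nat.cast_nonneg k
    linarith
  rcases ha.2.lt_or_eq with h1 | h1
  · have h2 : Tendsto (fun k => t (φ k) • u) atTop (𝓝 (a • u)) := hl.smul_const u
    have h3 := pt_tendsto D.loc (tendsto_const_nhds (x := y)) h2 (hFU.2 a ha.1 h1)
    have h4 : Tendsto h atTop (𝓝 0) := by
      rw [tendsto_zero_iff_norm_tendsto_zero]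
      exact squeeze_zero (fun _ => norm_nonneg _) hh tendsto_one_div_add_atTop_nhds_zero_nat
    have h5 : Tendsto (fun k => h (φ k) • w) atTop (𝓝 0) := by
      have := (h4.comp hφ.tendsto_atTop).smul_const w
      rwa [zero_smul] at this
    obtain ⟨k, hk⟩ := (vis_tendsto D.loc h3 h5 (vis_zero D.loc _)).exists
    exact hv _ hk
  · rw [h1] at hl
    obtain ⟨k, hk⟩ := seq_vis D hD hu hw hFU (t := t ∘ φ) (h := h ∘ φ) (fun k => ht0 _)
      (fun k => ht1 _) hl (fun k => hh1 _)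
    exact hv _ hk

/-- first unseen vectors persist under small transverse moves -/
theorem a_open (D : AffData X Γ E dev hol) {V W : Submodule ℝ E} (hD : Dm hol V W) {y : X}
    {u w : E} (hu : u ∈ V) (hw : w ∈ W) (hFU : FU dev y u) :
    ∃ ε : ℝ, 0 < ε ∧ ∀ h : ℝ, |h| ≤ ε → Vis dev y (h • w) ∧ FU dev (pt dev y (h • w)) u := by
  obtain ⟨ε, hε, hA⟩ := f1 D hD hu hw hFU
  refine ⟨ε, hε, fun h hh => ?_⟩
  have hy : Vis dev y (h • w) := by
    have := hA h hh 0 le_rfl zero_lt_one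
    rwa [zero_smul, pt_zero D.loc] at this
  have hB : ∀ t : ℝ, 0 ≤ t → t < 1 → Ex dev (pt dev y (h • w)) (t • u)
      (pt dev (pt dev y (t • u)) (h • w)) := by
    intro t ht0 ht1
    refine par D.loc (pt_spec (hFU.2 t ht0 ht1)) fun s hs => ?_
    rw [smul_smul]
    refine hA h hh _ (mul_nonneg hs.1 ht0) ?_
    calc s * t ≤ 1 * t := mul_le_mul_of_nonneg_right hs.2 ht0
      _ < 1 := by linarith
  refine ⟨hy, ?_, fun t ht0 ht1 => ⟨_, hB t ht0 ht1⟩⟩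
  intro hvis
  obtain ⟨t, htd⟩ : ∃ t : ℕ → ℝ, t = fun k : ℕ => 1 - 1 / ((k : ℝ) + 1) := ⟨_, rfl⟩
  have hq : ∀ k : ℕ, 0 ≤ t k ∧ t k < 1 := by
    intro k
    have h1 : (0 : ℝ) < (k : ℝ) + 1 := by positivity
    have h2 : 1 / ((k : ℝ) + 1) ≤ 1 := by
      rw [div_le_one h1]
      have : (0 : ℝ) ≤ k := Nat.cast_nonneg k
      linarith
    have h3 : 0 < 1 / ((k : ℝ) + 1) := by positivity
    rw [htd]
    constructor <;> beta_reduce <;> linarith
  have htl : Tendsto t atTop (𝓝 1) := by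
    have h3 : Tendsto (fun k : ℕ => 1 - 1 / ((k : ℝ) + 1)) atTop (𝓝 (1 - 0)) :=
      tendsto_const_nhds.sub tendsto_one_div_add_atTop_nhds_zero_nat
    rw [sub_zero] at h3
    rw [htd]
    exact h3
  obtain ⟨φ, γ, κ, z, hφ, hκ, hγκ, hγ⟩ := blow D hFU (fun k => (hq k).1) (fun k => (hq k).2) htl
  have h1 := dm_tendsto hD hu hw hγ
  have h2 : Tendsto (fun k => h • lin hol (γ k)⁻¹ w) atTop (𝓝 0) := by
    have := h1.const_smul h
    rwa [smul_zero] at this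
  have h3 := pt_tendsto D.loc hκ h2 (vis_zero D.loc z)
  rw [pt_zero D.loc] at h3
  have h4 := vis_tendsto D.loc hκ h2 (vis_zero D.loc z)
  obtain ⟨p, hp⟩ : ∃ p, p = pt dev (pt dev y (h • w)) ((1 : ℝ) • u) := ⟨_, rfl⟩
  have h5 : Tendsto (fun k => pt dev (pt dev y (h • w)) (t (φ k) • u)) atTop (𝓝 p) := by
    rw [hp]
    refine pt_tendsto D.loc tendsto_const_nhds
      ((htl.comp hφ.tendsto_atTop).smul_const u) ?_
    rwa [one_smul]
  obtain ⟨N1, hN1, hN1c⟩ := exists_cpt_nhd D z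
  obtain ⟨N2, hN2, hN2c⟩ := exists_cpt_nhd D p
  have hfin := D.pd (N1 ∪ N2) (hN1c.union hN2c)
  obtain ⟨M, hM⟩ : ∃ M : ℝ, ∀ g ∈ {γ : Γ | ∃ x ∈ N1 ∪ N2, γ • x ∈ N1 ∪ N2},
      ‖lin hol g u‖ ≤ M := by
    obtain ⟨M, hM⟩ := (hfin.image fun g => ‖lin hol g u‖).bddAbove
    exact ⟨M, fun g hg => hM ⟨g, hg, rfl⟩⟩
  obtain ⟨k, ⟨⟨k1, k2⟩, k3⟩, k4⟩ :=
    (((h3.eventually_mem hN1).and h4).and (h5.eventually_mem hN2)).and
      (hγ.eventually_gt_atTop M) |>.exists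
  have hM' := hM (γ k)⁻¹ ?_
  · linarith
  · refine ⟨_, Or.inr k3, Or.inl ?_⟩
    have e1 : pt dev (pt dev y (h • w)) (t (φ k) • u) =
        pt dev (pt dev y (t (φ k) • u)) (h • w) := Ex.pt D.loc (hB _ (hq _).1 (hq _).2)
    rw [← lin_smul] at k1 k2
    have e2 : pt dev (pt dev y (t (φ k) • u)) (h • w) =
        γ k • pt dev (κ k) (lin hol (γ k)⁻¹ (h • w)) := Ex.pt D.loc (ex_back D (hγκ k) k2)
    rw [e1, e2, inv_smul_smul]
    exact k1

/-- first unseen vectors are constant along transverse moves -/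
theorem constW (D : AffData X Γ E dev hol) {V W : Submodule ℝ E} (hD : Dm hol V W) {x y : X}
    {u w : E} (hu : u ∈ V) (hw : w ∈ W) (hFU : FU dev x u) (hxy : Ex dev x w y) : FU dev y u := by
  have hv : Vis dev x w := ⟨y, hxy⟩
  have hmove : ∀ (u' : E), u' ∈ V → ∀ (s0 : ℝ) (hs0 : s0 ∈ Icc (0 : ℝ) 1),
      FU dev (pt dev x (s0 • w)) u' →
      ∀ᶠ s : Icc (0 : ℝ) 1 in 𝓝 ⟨s0, hs0⟩, FU dev (pt dev x ((s : ℝ) • w)) u' := by
    intro u' hu' s0 hs0 hF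
    obtain ⟨ε, hε, h1⟩ := a_open D hD hu' hw hF
    have h2 : ∀ᶠ s : Icc (0 : ℝ) 1 in 𝓝 ⟨s0, hs0⟩, |(s : ℝ) - s0| < ε := by
      have h3 : Tendsto (fun s : Icc (0 : ℝ) 1 => |(s : ℝ) - s0|) (𝓝 ⟨s0, hs0⟩) (𝓝 |s0 - s0|) :=
        ((continuous_subtype_val.sub continuous_const).abs).continuousAt
      rw [sub_self, abs_zero] at h3
      exact h3.eventually_lt_const hε
    filter_upwards [h2] with s hs
    have h4 := (h1 _ hs.le).2
    rwa [Ex.pt D.loc (pt_shift D.loc hv hs0 s.2)] at h4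
  have hlc : IsLocallyConstant (fun s : Icc (0 : ℝ) 1 => FU dev (pt dev x ((s : ℝ) • w)) u) := by
    rw [IsLocallyConstant.iff_eventually_eq]
    rintro ⟨s0, hs0⟩
    by_cases hF : FU dev (pt dev x (s0 • w)) u
    · filter_upwards [hmove u hu s0 hs0 hF] with s hs
      exact propext ⟨fun _ => hF, fun _ => hs⟩
    · have hcont : Tendsto (fun s : Icc (0 : ℝ) 1 => pt dev x ((s : ℝ) • w)) (𝓝 ⟨s0, hs0⟩)
          (𝓝 (pt dev x (s0 • w))) :=
        pt_tendsto D.loc tendsto_const_nhds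
          ((continuous_subtype_val.smul continuous_const).continuousAt) (vis_smul hv hs0.1 hs0.2)
      have h5 : ∀ᶠ s : Icc (0 : ℝ) 1 in 𝓝 ⟨s0, hs0⟩, ¬ FU dev (pt dev x ((s : ℝ) • w)) u := by
        by_cases hV : Vis dev (pt dev x (s0 • w)) u
        · filter_upwards [vis_tendsto D.loc hcont (tendsto_const_nhds (x := u)) hV] with s hs h6
          exact h6.1 hs
        · have h7 : ∃ t : ℝ, 0 ≤ t ∧ t < 1 ∧ ¬ Vis dev (pt dev x (s0 • w)) (t • u) := by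
            by_contra hcon
            push Not at hcon
            exact hF ⟨hV, hcon⟩
          obtain ⟨t, ht0, ht1, ht⟩ := h7
          obtain ⟨s', hs'0, hs'1, hs'⟩ := exists_FU D.loc ht
          filter_upwards [hmove (s' • t • u) (V.smul_mem _ (V.smul_mem _ hu)) s0 hs0 hs'] with s hs h6
          apply hs.1
          rw [smul_smul]
          refine h6.2 _ (mul_nonneg hs'0.le ht0) ?_
          calc s' * t ≤ 1 * t := mul_le_mul_of_nonneg_right hs'1 ht0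
            _ < 1 := by linarith
      filter_upwards [h5] with s hs
      exact propext ⟨fun h => absurd h hs, fun h => absurd h hF⟩
  have h8 := hlc.apply_eq_of_preconnectedSpace ⟨0, le_rfl, zero_le_one⟩ ⟨1, zero_le_one, le_rfl⟩
  beta_reduce at h8
  have e0 : pt dev x ((0 : ℝ) • w) = x := by rw [zero_smul]; exact pt_zero D.loc x
  have e1 : pt dev x ((1 : ℝ) • w) = y := by rw [one_smul]; exact Ex.pt D.loc hxy
  change FU dev (pt dev x ((0 : ℝ) • w)) u = FU dev (pt dev x ((1 : ℝ) • w)) u at h8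
  rw [e0, e1] at h8
  rwa [← h8]

/-- a point with an unseen vector in `V` sees all vectors in `W` -/
theorem allW (D : AffData X Γ E dev hol) {V W : Submodule ℝ E} (hD : Dm hol V W) {x : X}
    {u : E} (hu : u ∈ V) (hFU : FU dev x u) {w : E} (hw : w ∈ W) : Vis dev x w := by
  obtain ⟨t0, ht0, ht1, h1⟩ := f2 D hD hu hw hFU 1
  obtain ⟨z, hz⟩ : ∃ z, z = pt dev x (t0 • u) := ⟨_, rfl⟩
  have hxz : Ex dev x (t0 • u) z := by rw [hz]; exact pt_spec (hFU.2 _ ht0 ht1)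
  have hzx : Ex dev z (-(t0 • u)) x := hxz.symm
  have hzw : ∀ s : ℝ, |s| ≤ 1 → Vis dev z (s • w) := by
    intro s hs
    rw [hz]
    exact h1 t0 le_rfl ht1 s hs
  have hback : ∀ s ∈ Icc (0 : ℝ) 1, Vis dev (pt dev z (s • w)) (-(t0 • u)) := by
    intro s hs
    by_contra hcon
    obtain ⟨s', hs'0, hs'1, hs'⟩ := exists_FU D.loc hcon
    have hvs : Vis dev z (s • w) := hzw s (by rw [abs_of_nonneg hs.1]; exact hs.2)
    have h3 := constW D hD (V.smul_mem _ (V.neg_mem (V.smul_mem _ hu))) (W.neg_mem (W.smul_mem s hw)) hs'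
      (pt_spec hvs).symm
    exact h3.1 (vis_smul ⟨x, hzx⟩ hs'0.le hs'1)
  have hw1 : Vis dev z w := by
    have := hzw 1 (by rw [abs_one])
    rwa [one_smul] at this
  have h4 := par D.loc (pt_spec hw1) hback
  rw [Ex.pt D.loc hzx] at h4
  exact ⟨_, h4⟩

end

end Pool.Agent.Y449.MK
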