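import Pool.Agent.Y449.MK.Dom2
import Pool.Agent.TH569.MK.Exp

/-!
Affine manifolds with a dominated splitting of the linear holonomy: completeness.
-/

set_option autoImplicit false

open Set Filter Topology Metric

namespace Pool.Agent.Y449.MK

open Pool.Agent.W689.Mk Pool.Agent.TH569.MK

section
variable {X E : Type} [TopologicalSpace X] [T2Space X]
  [NormedAddCommGroup E] [NormedSpace ℝ E] [FiniteDimensional ℝ E]
  {dev : X → E}

/-- small moves are composed of moves in three subspaces -/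
theorem near (hloc : IsLocalHomeomorph dev) {V W S : Submodule ℝ E} (hsum : V ⊔ (W ⊔ S) = ⊤)
    (x : X) : ∀ᶠ y in 𝓝 x, ∃ a ∈ V, ∃ b ∈ W, ∃ c ∈ S, ∃ x1 x2,
      Ex dev x a x1 ∧ Ex dev x1 b x2 ∧ Ex dev x2 c y := by
  obtain ⟨f, hf⟩ : ∃ f : V × (W × S) →ₗ[ℝ] E,
    f = V.subtype.coprod (W.subtype.coprod S.subtype) := ⟨_, rfl⟩
  have hfr : LinearMap.range f = ⊤ := by
    rw [hf, LinearMap.range_coprod, LinearMap.range_coprod, Submodule.range_subtype,
      Submodule.range_subtype, Submodule.range_subtype, hsum]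
  obtain ⟨g, hg⟩ := LinearMap.exists_rightInverse_of_surjective f hfr
  have hg' : ∀ v, ((g v).1 : E) + (((g v).2.1 : E) + ((g v).2.2 : E)) = v := by
    intro v
    have h1 : f (g v) = v := by
      have := congrArg (fun l : E →ₗ[ℝ] E => l v) hg
      exact this
    rw [hf] at h1
    exact h1
  have hA : Continuous fun v : E => ((g v).1 : E) :=
    (V.subtype.comp ((LinearMap.fst ℝ V (W × S)).comp g)).continuous_of_finiteDimensional
  have hB : Continuous fun v : E => ((g v).2.1 : E) :=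
    (W.subtype.comp ((LinearMap.fst ℝ W S).comp ((LinearMap.snd ℝ V (W × S)).comp g))).continuous_of_finiteDimensional
  obtain ⟨e, r, hxe, he, hr, hrt⟩ := exists_sec hloc x
  have hsec := sec_of_target e he (dev x) r hrt
  have hex : e.symm (dev x) = x := by rw [he]; exact e.left_inv hxe
  have hN : e.symm '' ball (dev x) r ∈ 𝓝 x :=
    (hsec.isOpen_image hloc isOpen_ball Subset.rfl).mem_nhds ⟨dev x, mem_ball_self hr, hex⟩
  have hd : Tendsto (fun y => dev y - dev x) (𝓝 x) (𝓝 0) := by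
    have := (hloc.continuous.tendsto x).sub (tendsto_const_nhds (x := dev x))
    rwa [sub_self] at this
  have h0 : (g 0) = 0 := map_zero g
  have h1 : ∀ᶠ y in 𝓝 x, dev x + ((g (dev y - dev x)).1 : E) ∈ ball (dev x) r := by
    have h2 : Tendsto (fun y => dev x + ((g (dev y - dev x)).1 : E)) (𝓝 x) (𝓝 (dev x + ((g 0).1 : E))) :=
      tendsto_const_nhds.add ((hA.tendsto 0).comp hd)
    rw [h0] at h2
    simp only [Prod.fst_zero, ZeroMemClass.coe_zero, add_zero] at h2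
    exact h2.eventually_mem (ball_mem_nhds _ hr)
  have h3 : ∀ᶠ y in 𝓝 x, dev x + ((g (dev y - dev x)).1 : E) + ((g (dev y - dev x)).2.1 : E) ∈
      ball (dev x) r := by
    have h2 : Tendsto (fun y => dev x + ((g (dev y - dev x)).1 : E) + ((g (dev y - dev x)).2.1 : E))
        (𝓝 x) (𝓝 (dev x + ((g 0).1 : E) + ((g 0).2.1 : E))) :=
      (tendsto_const_nhds.add ((hA.tendsto 0).comp hd)).add ((hB.tendsto 0).comp hd)
    rw [h0] at h2
    simp only [Prod.fst_zero, Prod.snd_zero, ZeroMemClass.coe_zero, add_zero] at h2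
    exact h2.eventually_mem (ball_mem_nhds _ hr)
  filter_upwards [hN, h1, h3] with y hy1 hy2 hy3
  obtain ⟨q, hq, rfl⟩ := hy1
  have hq' : dev (e.symm q) = q := hsec.inv q hq
  rw [hq'] at hy2 hy3
  have h4 := hg' (q - dev x)
  refine ⟨_, (g (q - dev x)).1.2, _, (g (q - dev x)).2.1.2, _, (g (q - dev x)).2.2.2,
    _, _, ?_, hsec.Ex hy2 hy3, ?_⟩
  · have := hsec.Ex (mem_ball_self hr) hy2
    rwa [hex] at this
  · have h5 : dev x + ((g (q - dev x)).1 : E) + ((g (q - dev x)).2.1 : E) +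
        ((g (q - dev x)).2.2 : E) = q := by
      rw [add_assoc, add_assoc, h4]
      abel
    have := hsec.Ex hy3 (v := ((g (q - dev x)).2.2 : E)) (by rw [h5]; exact hq)
    rwa [h5] at this

omit [FiniteDimensional ℝ E] in
theorem add_vis (hloc : IsLocalHomeomorph dev) {V S : Submodule ℝ E}
    (hV : ∀ (x : X), ∀ v ∈ V, Vis dev x v) (hS : ∀ (x : X), ∀ v ∈ S, Vis dev x v) :
    ∀ (x : X), ∀ v ∈ V ⊔ S, Vis dev x v := by
  intro x v hv
  obtain ⟨a, ha, b, hb, rfl⟩ := Submodule.mem_sup.1 hv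
  obtain ⟨y, hy⟩ := hV x a ha
  exact ex_add hloc hy fun y t => hS y _ (S.smul_mem t hb)

end

section
variable {X Γ E : Type} [TopologicalSpace X] [T2Space X] [Group Γ] [MulAction Γ X]
  [NormedAddCommGroup E] [NormedSpace ℝ E] [FiniteDimensional ℝ E] [SecondCountableTopology X]
  {dev : X → E} {hol : Γ →* (E ≃ᵃ[ℝ] E)}

theorem dich [PreconnectedSpace X] (D : AffData X Γ E dev hol) {V W S : Submodule ℝ E}
    (hsum : V ⊔ (W ⊔ S) = ⊤) (hD : Dm hol V W) (hS : ∀ (x : X), ∀ v ∈ S, Vis dev x v) :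
    (∀ (x : X), ∀ v ∈ V, Vis dev x v) ∨ ∀ (x : X), ∀ w ∈ W, Vis dev x w := by
  obtain ⟨A, hA⟩ : ∃ A : Set X, A = {x | ∃ u ∈ V, ¬ Vis dev x u} := ⟨_, rfl⟩
  have sV : ∀ x y a, a ∈ V → Ex dev x a y → x ∈ A → y ∈ A := by
    intro x y a ha hxy hx
    by_contra hy
    rw [hA] at hx hy
    obtain ⟨u, hu, hx⟩ := hx
    have hy' : ∀ v ∈ V, Vis dev y v := by
      intro v hv
      by_contra hcon
      exact hy ⟨v, hv, hcon⟩
    apply hx
    exact ⟨_, tri D.loc hxy.symm fun t ht => hy' _ (V.add_mem (V.neg_mem ha) (V.smul_mem t hu))⟩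
  have sW : ∀ x y a, a ∈ W → Ex dev x a y → x ∈ A → y ∈ A := by
    intro x y a ha hxy hx
    rw [hA] at hx ⊢
    obtain ⟨u, hu, hx⟩ := hx
    obtain ⟨s, hs0, hs1, hs⟩ := exists_FU D.loc hx
    exact ⟨_, V.smul_mem s hu, (constW D hD (V.smul_mem s hu) ha hs hxy).1⟩
  have sS : ∀ x y a, a ∈ S → Ex dev x a y → x ∈ A → y ∈ A := by
    intro x y a ha hxy hx
    rw [hA] at hx ⊢
    obtain ⟨u, hu, hx⟩ := hx
    refine ⟨u, hu, fun hvis => hx ?_⟩
    have h1 := par D.loc (pt_spec hvis) (w := -a) fun t _ => hS _ _ (S.neg_mem ha)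
    rw [Ex.pt D.loc hxy.symm] at h1
    exact ⟨_, h1⟩
  have hloc : ∀ x, ∀ᶠ y in 𝓝 x, (x ∈ A ↔ y ∈ A) := by
    intro x
    filter_upwards [near D.loc hsum x] with y hy
    obtain ⟨a, ha, b, hb, c, hc, x1, x2, h1, h2, h3⟩ := hy
    constructor
    · exact fun h => sS _ _ _ hc h3 (sW _ _ _ hb h2 (sV _ _ _ ha h1 h))
    · exact fun h => sV _ _ _ (V.neg_mem ha) h1.symm
        (sW _ _ _ (W.neg_mem hb) h2.symm (sS _ _ _ (S.neg_mem hc) h3.symm h))
  have hclopen : IsClopen A := by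
    refine ⟨?_, ?_⟩
    · rw [← isOpen_compl_iff, isOpen_iff_mem_nhds]
      intro x hx
      filter_upwards [hloc x] with y hy
      exact fun h => hx (hy.2 h)
    · rw [isOpen_iff_mem_nhds]
      intro x hx
      filter_upwards [hloc x] with y hy
      exact hy.1 hx
  rcases isClopen_iff.1 hclopen with h | h
  · left
    intro x v hv
    by_contra hcon
    have : x ∈ A := by rw [hA]; exact ⟨v, hv, hcon⟩
    rw [h] at this
    exact this
  · right
    intro x w hw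
    have hx : x ∈ A := by rw [h]; trivial
    rw [hA] at hx
    obtain ⟨u, hu, hx⟩ := hx
    obtain ⟨s, hs0, hs1, hs⟩ := exists_FU D.loc hx
    exact allW D hD (V.smul_mem s hu) hs hw

/-- where the linear holonomy is large on `V`, its inverse is small on `V` -/
def Ep (hol : Γ →* (E ≃ᵃ[ℝ] E)) (V : Submodule ℝ E) : Prop :=
  ∀ ε : ℝ, 0 < ε → ∃ R : ℝ, ∀ γ : Γ, (∃ v ∈ V, R * ‖v‖ < ‖(hol γ).linear v‖) →
    ∀ v ∈ V, ‖(hol γ⁻¹).linear v‖ ≤ ε * ‖v‖

/-- if the directions of `S` are complete and the holonomy on the rest is expanding -/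
theorem one_block [ConnectedSpace X] (D : AffData X Γ E dev hol) {W S : Submodule ℝ E}
    (hsum : W ⊔ S = ⊤) (iS : ∀ γ : Γ, ∀ v ∈ S, lin hol γ v ∈ S) (hE : Ep hol W)
    (hS : ∀ (x : X), ∀ v ∈ S, Vis dev x v) : IsHomeomorph dev := by
  obtain ⟨π, hπ, hker⟩ : ∃ π : E →L[ℝ] EuclideanSpace ℝ (Fin (Module.finrank ℝ (E ⧸ S))),
      Function.Surjective π ∧ ∀ v, π v = 0 ↔ v ∈ S := by
    have e : (E ⧸ S) ≃ₗ[ℝ] EuclideanSpace ℝ (Fin (Module.finrank ℝ (E ⧸ S))) :=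
      LinearEquiv.ofFinrankEq _ _ (by simp)
    refine ⟨LinearMap.toContinuousLinearMap ((e : _ →ₗ[ℝ] _).comp S.mkQ), ?_, ?_⟩
    · intro q
      obtain ⟨v, hv⟩ := S.mkQ_surjective (e.symm q)
      refine ⟨v, ?_⟩
      show e (S.mkQ v) = q
      rw [hv, e.apply_symm_apply]
    · intro v
      show e (S.mkQ v) = 0 ↔ _
      rw [e.map_eq_zero_iff, Submodule.mkQ_apply, Submodule.Quotient.mk_eq_zero]
  generalize Module.finrank ℝ (E ⧸ S) = m at π hπ hker
  have hWs : LinearMap.range ((π : E →ₗ[ℝ] EuclideanSpace ℝ (Fin m)).comp W.subtype) = ⊤ := by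
    rw [LinearMap.range_eq_top]
    intro q
    obtain ⟨v, rfl⟩ := hπ q
    have hv : v ∈ W ⊔ S := by rw [hsum]; trivial
    obtain ⟨b, hb, c, hc, rfl⟩ := Submodule.mem_sup.1 hv
    refine ⟨⟨b, hb⟩, ?_⟩
    show π b = π (b + c)
    rw [map_add, (hker c).2 hc, add_zero]
  obtain ⟨l0, hl0⟩ := LinearMap.exists_rightInverse_of_surjective _ hWs
  obtain ⟨l, hl⟩ : ∃ l : EuclideanSpace ℝ (Fin m) →L[ℝ] E,
    l = LinearMap.toContinuousLinearMap (W.subtype.comp l0) := ⟨_, rfl⟩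
  have hlW : ∀ q, l q ∈ W := by
    intro q
    rw [hl]
    exact (l0 q).2
  have hπl : ∀ q, π (l q) = q := by
    intro q
    have := congrArg (fun f : EuclideanSpace ℝ (Fin m) →ₗ[ℝ] EuclideanSpace ℝ (Fin m) => f q) hl0
    rw [hl]
    exact this
  have hρ : ∀ γ v, π (lin hol γ v) = (π.comp ((cl hol γ).comp l)) (π v) := by
    intro γ v
    show π (lin hol γ v) = π (lin hol γ (l (π v)))
    have h3 : v - l (π v) ∈ S := by
      rw [← hker, map_sub, hπl, sub_self]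
    have h4 := iS γ _ h3
    have h5 : lin hol γ (v - l (π v)) = lin hol γ v - lin hol γ (l (π v)) :=
      (hol γ).linear.map_sub _ _
    rw [h5, ← hker, map_sub, sub_eq_zero] at h4
    exact h4
  have hbound : ∀ γ (c : ℝ), 0 ≤ c → (∀ w ∈ W, ‖lin hol γ w‖ ≤ c * ‖w‖) →
      ‖π.comp ((cl hol γ).comp l)‖ ≤ ‖π‖ * (c * ‖l‖) := by
    intro γ c hc hw
    refine ContinuousLinearMap.opNorm_le_bound _ (by positivity) fun q => ?_
    calc ‖π (cl hol γ (l q))‖ ≤ ‖π‖ * ‖cl hol γ (l q)‖ := π.le_opNorm _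
      _ ≤ ‖π‖ * (c * ‖l q‖) := by
        have := hw _ (hlW q)
        gcongr
        exact this
      _ ≤ ‖π‖ * (c * (‖l‖ * ‖q‖)) := by
        have := l.le_opNorm q
        gcongr
      _ = _ := by ring
  refine exp_complete D hπ (fun x v hv => hS x v ((hker v).1 hv)) _ hρ fun ε hε => ?_
  obtain ⟨R1, hR1⟩ := hE (ε / (‖π‖ * ‖l‖ + 1)) (by positivity)
  refine ⟨‖π‖ * (|R1| * ‖l‖) + 1, fun γ hγ => ?_⟩
  have h3 : ∃ w ∈ W, R1 * ‖w‖ < ‖(hol γ).linear w‖ := by
    by_contra hcon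
    push Not at hcon
    have := hbound γ |R1| (abs_nonneg _) fun w hw => (hcon w hw).trans
      (mul_le_mul_of_nonneg_right (le_abs_self R1) (norm_nonneg _))
    linarith
  have h10 := hbound γ⁻¹ _ (by positivity) (hR1 γ h3)
  refine h10.trans ?_
  have h11 : ‖π‖ * (ε / (‖π‖ * ‖l‖ + 1) * ‖l‖) = (‖π‖ * ‖l‖) / (‖π‖ * ‖l‖ + 1) * ε := by ring
  rw [h11]
  have h12 : (‖π‖ * ‖l‖) / (‖π‖ * ‖l‖ + 1) ≤ 1 := by
    rw [div_le_one (by positivity)]
    linarith
  calc _ ≤ 1 * ε := mul_le_mul_of_nonneg_right h12 hε.le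
    _ = ε := one_mul ε

omit [TopologicalSpace X] [T2Space X] [MulAction Γ X] [SecondCountableTopology X]
  [FiniteDimensional ℝ E] in
theorem inv_sup {V S : Submodule ℝ E} (iV : ∀ γ : Γ, ∀ v ∈ V, lin hol γ v ∈ V)
    (iS : ∀ γ : Γ, ∀ v ∈ S, lin hol γ v ∈ S) : ∀ γ : Γ, ∀ v ∈ V ⊔ S, lin hol γ v ∈ V ⊔ S := by
  intro γ v hv
  obtain ⟨a, ha, b, hb, rfl⟩ := Submodule.mem_sup.1 hv
  have : lin hol γ (a + b) = lin hol γ a + lin hol γ b := (hol γ).linear.map_add a b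
  rw [this]
  exact Submodule.add_mem _ (Submodule.mem_sup_left (iV γ a ha))
    (Submodule.mem_sup_right (iS γ b hb))

/-- closed affine manifolds with a dominated splitting modulo complete directions -/
theorem dom_complete [ConnectedSpace X] (D : AffData X Γ E dev hol) {V W S : Submodule ℝ E}
    (hsum : V ⊔ (W ⊔ S) = ⊤)
    (iV : ∀ γ : Γ, ∀ v ∈ V, lin hol γ v ∈ V) (iW : ∀ γ : Γ, ∀ v ∈ W, lin hol γ v ∈ W)
    (iS : ∀ γ : Γ, ∀ v ∈ S, lin hol γ v ∈ S) (hD : Dm hol V W) (hV : Ep hol V) (hW : Ep hol W)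
    (hS : ∀ (x : X), ∀ v ∈ S, Vis dev x v) : IsHomeomorph dev := by
  rcases dich D hsum hD hS with h | h
  · refine one_block D (W := W) (S := V ⊔ S) ?_ (inv_sup iV iS) hW (add_vis D.loc h hS)
    rw [← hsum]
    ac_rfl
  · refine one_block D (W := V) (S := W ⊔ S) ?_ (inv_sup iW iS) hV (add_vis D.loc h hS)
    rw [← hsum]

end

end Pool.Agent.Y449.MK
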