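import Pool.Agent.Y449.MK.Cyc

/-!
The hypotheses of the completeness theorem for dominated holonomy.
-/

set_option autoImplicit false

namespace Pool.Agent.Y449.MK

open Pool.Agent.W689.Mk

variable {X Γ E : Type} [TopologicalSpace X] [Group Γ] [MulAction Γ X]
  [NormedAddCommGroup E] [NormedSpace ℝ E]

/-- the linear holonomy of the subgroup `H` preserves `V` -/
def Invt (hol : Γ →* (E ≃ᵃ[ℝ] E)) (H : Subgroup Γ) (V : Submodule ℝ E) : Prop :=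
  ∀ γ ∈ H, ∀ v ∈ V, (hol γ).linear v ∈ V

/-- for `γ` in `H`: where the linear holonomy is large on `V`, it is small on `W` -/
def Dominates (hol : Γ →* (E ≃ᵃ[ℝ] E)) (H : Subgroup Γ) (V W : Submodule ℝ E) : Prop :=
  ∀ ε : ℝ, 0 < ε → ∃ R : ℝ, ∀ γ ∈ H, (∃ v ∈ V, R * ‖v‖ < ‖(hol γ).linear v‖) →
    ∀ w ∈ W, ‖(hol γ).linear w‖ ≤ ε * ‖w‖

/-- for `γ` in `H`: where the linear holonomy is large on `V`, its inverse is small on `V` -/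
def Expands (hol : Γ →* (E ≃ᵃ[ℝ] E)) (H : Subgroup Γ) (V : Submodule ℝ E) : Prop :=
  ∀ ε : ℝ, 0 < ε → ∃ R : ℝ, ∀ γ ∈ H, (∃ v ∈ V, R * ‖v‖ < ‖(hol γ).linear v‖) →
    ∀ v ∈ V, ‖(hol γ⁻¹).linear v‖ ≤ ε * ‖v‖

/-- `S 0` consists of complete directions, and the linear holonomy of `H` is bounded on `S (i + 1)`
modulo `S i` for `i < m` -/
def BddChain (dev : X → E) (hol : Γ →* (E ≃ᵃ[ℝ] E)) (H : Subgroup Γ) (S : ℕ → Submodule ℝ E)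
    (m : ℕ) : Prop :=
  (∀ (x : X), ∀ v ∈ S 0, Geod dev x v) ∧
    ∀ i < m, ∃ C : ℝ, ∀ γ ∈ H, ∀ v ∈ S (i + 1), ∃ w ∈ S i, ‖(hol γ).linear v - w‖ ≤ C * ‖v‖

/-- the linear holonomy of `H` commutes with a linear automorphism `T` and lies at bounded distance
from the powers of `T` -/
def NearCyclic (hol : Γ →* (E ≃ᵃ[ℝ] E)) (H : Subgroup Γ) : Prop :=
  ∃ (T : E ≃ₗ[ℝ] E) (C : ℝ), ∀ γ ∈ H, (∀ v : E, (hol γ).linear (T v) = T ((hol γ).linear v)) ∧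
    ∃ n : ℤ, ∀ v : E, ‖(T ^ n) ((hol γ).linear v)‖ ≤ C * ‖v‖ ∧
      ‖v‖ ≤ C * ‖(T ^ n) ((hol γ).linear v)‖

end Pool.Agent.Y449.MK
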