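import Pool.Agent.TH94.MK.Main
import Pool.Agent.W689.Mk.Star

/-!
Quotients `Γ \ Ω` of domains of the affine space by affine groups with parallel volume: towers of
translations and groups which commute modulo a tower.
-/

set_option autoImplicit false

open Set Filter Topology MeasureTheory Metric
open scoped ENNReal
open Pool.Agent.W689.Mk Pool.Agent.TH94.MK

namespace Pool.Agent.Y449.MK

section
variable {Γ E : Type} [Group Γ] [NormedAddCommGroup E] [NormedSpace ℝ E]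
  {hol : Γ →* (E ≃ᵃ[ℝ] E)}

/-- `γ` acts as the translation by `v` modulo `F` -/
def Tr (hol : Γ →* (E ≃ᵃ[ℝ] E)) (F : Submodule ℝ E) (γ : Γ) (v : E) : Prop :=
  ∀ q : E, hol γ q - q - v ∈ F

theorem Tr.one (F : Submodule ℝ E) : Tr hol F 1 0 := by
  intro q
  rw [map_one]
  show q - q - 0 ∈ F
  simp

theorem Tr.mul {F : Submodule ℝ E} {γ δ : Γ} {v w : E} (h : Tr hol F γ v) (h' : Tr hol F δ w) :
    Tr hol F (γ * δ) (v + w) := by
  intro q
  have h1 := F.add_mem (h (hol δ q)) (h' q)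
  rw [map_mul]
  show hol γ (hol δ q) - q - (v + w) ∈ F
  convert h1 using 1
  abel

theorem Tr.inv {F : Submodule ℝ E} {γ : Γ} {v : E} (h : Tr hol F γ v) :
    Tr hol F γ⁻¹ (-v) := by
  intro q
  have h1 := F.neg_mem (h (hol γ⁻¹ q))
  rw [hol_apply_inv] at h1
  convert h1 using 1
  abel

theorem Tr.pow {F : Submodule ℝ E} {γ : Γ} {v : E} (h : Tr hol F γ v) (n : ℕ) :
    Tr hol F (γ ^ n) ((n : ℝ) • v) := by
  induction n with
  | zero => simpa using Tr.one (hol := hol) F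
  | succ k ih =>
    rw [pow_succ, Nat.cast_succ, add_smul, one_smul]
    exact ih.mul h

theorem Tr.zpow {F : Submodule ℝ E} {γ : Γ} {v : E} (h : Tr hol F γ v) (n : ℤ) :
    Tr hol F (γ ^ n) ((n : ℝ) • v) := by
  cases n with
  | ofNat k => simpa using h.pow k
  | negSucc k =>
    rw [zpow_negSucc]
    have h1 := (h.pow (k + 1)).inv
    convert h1 using 1
    rw [Int.cast_negSucc, neg_smul]

/-- the next step of the tower: directions of the translations modulo `F` -/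
def next (hol : Γ →* (E ≃ᵃ[ℝ] E)) (F : Submodule ℝ E) : Submodule ℝ E :=
  F ⊔ Submodule.span ℝ {v | ∃ γ : Γ, Tr hol F γ v}

/-- the group of the elements which are translations modulo `F` -/
def trGroup (hol : Γ →* (E ≃ᵃ[ℝ] E)) (F : Submodule ℝ E) : Subgroup Γ where
  carrier := {γ | ∃ v, Tr hol F γ v}
  one_mem' := ⟨0, Tr.one F⟩
  mul_mem' := by
    rintro γ δ ⟨v, hv⟩ ⟨w, hw⟩
    exact ⟨v + w, hv.mul hw⟩
  inv_mem' := by
    rintro γ ⟨v, hv⟩
    exact ⟨-v, hv.inv⟩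

/-- `F` is an invariant subspace, and `N` a group which acts trivially modulo `F`, cocompactly in
the direction of `F`, and properly -/
structure Good (hol : Γ →* (E ≃ᵃ[ℝ] E)) (Ω : Set E) (F : Submodule ℝ E) (N : Subgroup Γ) :
    Prop where
  inv : ∀ (γ : Γ), ∀ v ∈ F, lin hol γ v ∈ F
  triv : ∀ n ∈ N, ∀ q, hol n q - q ∈ F
  cocpt : ∀ R : ℝ, ∃ R' : ℝ, ∀ y : E, ∀ f ∈ F, ‖y - f‖ ≤ R → ∃ n ∈ N, ‖hol n y‖ ≤ R'
  prop : ∀ (n : ℕ → Γ) (w : ℕ → E) (w0 q : E), (∀ k, n k ∈ N) → Tendsto w atTop (𝓝 w0) →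
    w0 ∈ Ω → Tendsto (fun k => hol (n k) (w k)) atTop (𝓝 q) → q ∈ Ω

theorem good_bot (Ω : Set E) : Good hol Ω ⊥ ⊥ where
  inv γ v hv := by
    rw [Submodule.mem_bot] at hv
    rw [hv]
    have : lin hol γ (0 : E) = 0 := (hol γ).linear.map_zero
    rw [this]
    exact Submodule.zero_mem _
  triv n hn q := by
    rw [Subgroup.mem_bot] at hn
    rw [hn, map_one]
    show q - q ∈ _
    simp
  cocpt R := ⟨R, fun y f hf hy => ⟨1, Subgroup.one_mem _, by
    rw [Submodule.mem_bot] at hf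
    rw [hf, sub_zero] at hy
    rw [map_one]
    exact hy⟩⟩
  prop n w w0 q hn hw hw0 hq := by
    have h1 : (fun k => hol (n k) (w k)) = w := by
      funext k
      have := hn k
      rw [Subgroup.mem_bot] at this
      rw [this, map_one]
      rfl
    rw [h1] at hq
    rw [tendsto_nhds_unique hq hw]
    exact hw0

/-- pigeon hole principle for sequences -/
theorem pigeon {α : Type} {T : Set α} (hT : T.Finite) {f : ℕ → α} (hf : ∀ k, f k ∈ T) :
    ∃ δ ∈ T, ∃ φ : ℕ → ℕ, StrictMono φ ∧ ∀ k, f (φ k) = δ := by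
  by_contra hcon
  push Not at hcon
  have h1 : ∀ δ ∈ T, ∀ᶠ k in atTop, f k ≠ δ := by
    intro δ hδ
    by_contra h
    have h2 : ∃ᶠ k in atTop, f k = δ := by
      rw [Filter.Frequently]
      exact h
    obtain ⟨φ, hφ, hφ2⟩ := extraction_of_frequently_atTop h2
    obtain ⟨k, hk⟩ := hcon δ hδ φ hφ
    exact hk (hφ2 k)
  have h2 : ∀ᶠ k in atTop, ∀ δ ∈ T, f k ≠ δ := (hT.eventually_all (l := atTop)).2 h1
  obtain ⟨k, hk⟩ := h2.exists
  exact hk _ (hf k) rfl

end

end Pool.Agent.Y449.MK
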