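import Pool.Agent.Y449.MK.Comm

/-!
Passage to subgroups of finite index.
-/

set_option autoImplicit false

open Set Filter Topology Metric
open Pool.Agent.W689.Mk Pool.Agent.TH94.MK

namespace Pool.Agent.Y449.MK

section
variable {X Γ E : Type} [NormedAddCommGroup E] [NormedSpace ℝ E]
  [TopologicalSpace X] [T2Space X] [Group Γ] [MulAction Γ X]
  {dev : X → E} {hol : Γ →* (E ≃ᵃ[ℝ] E)}

theorem restrict (D : AffData X Γ E dev hol) (H : Subgroup Γ) (hH : H.FiniteIndex) :
    AffData X H E dev (hol.comp H.subtype) where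
  loc := D.loc
  cont γ := D.cont γ
  equi γ x := D.equi γ x
  unimod γ := D.unimod γ
  pd K hK := by
    have h1 := D.pd K hK
    have h2 : {γ : H | ∃ x ∈ K, γ • x ∈ K} = (fun γ : H => (γ : Γ)) ⁻¹' {γ : Γ | ∃ x ∈ K, γ • x ∈ K} := by
      ext γ
      rfl
    rw [h2]
    exact h1.preimage (Subtype.val_injective.injOn)
  cc := by
    obtain ⟨K, hK, hKc⟩ := D.cc
    have hfin : Finite (Quotient (QuotientGroup.rightRel H)) := by
      have h1 : Finite (Γ ⧸ H) := Subgroup.finite_quotient_of_finiteIndex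
      exact Finite.of_equiv _ (QuotientGroup.quotientRightRelEquivQuotientLeftRel H).symm
    let rep : Quotient (QuotientGroup.rightRel H) → Γ := Quotient.out
    refine ⟨⋃ c, (fun x => rep c • x) '' K, isCompact_iUnion fun c => hK.image (D.cont _), ?_⟩
    intro x
    obtain ⟨γ, k, hk, rfl⟩ := hKc x
    let c : Quotient (QuotientGroup.rightRel H) := Quotient.mk _ γ
    have h1 : γ * (rep c)⁻¹ ∈ H := by
      have h2 : Quotient.mk (QuotientGroup.rightRel H) (rep c) = Quotient.mk _ γ := Quotient.out_eq c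
      exact QuotientGroup.rightRel_apply.1 (Quotient.exact h2)
    refine ⟨⟨_, h1⟩, rep c • k, mem_iUnion.2 ⟨c, k, hk, rfl⟩, ?_⟩
    show (γ * (rep c)⁻¹) • rep c • k = γ • k
    rw [smul_smul, inv_mul_cancel_right]

end

section
variable {Γ E : Type} [Group Γ] [NormedAddCommGroup E] [NormedSpace ℝ E]

/-- The tower of translations of a group `H` of affine maps: `F 0 = 0`, and `F (m + 1)` is spanned
by `F m` and the vectors `v` such that some element of `H` acts as the translation by `v` modulo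
`F m`. -/
def Tower (hol : Γ →* (E ≃ᵃ[ℝ] E)) (H : Subgroup Γ) : ℕ → Submodule ℝ E
  | 0 => ⊥
  | m + 1 => Tower hol H m ⊔
      Submodule.span ℝ {v | ∃ γ ∈ H, ∀ q : E, hol γ q - q - v ∈ Tower hol H m}

theorem tower_eq (hol : Γ →* (E ≃ᵃ[ℝ] E)) (H : Subgroup Γ) (m : ℕ) :
    Tower hol H (m + 1) = next (hol.comp H.subtype) (Tower hol H m) := by
  have h1 : {v : E | ∃ γ ∈ H, ∀ q : E, hol γ q - q - v ∈ Tower hol H m} =
      {v : E | ∃ γ : H, Tr (hol.comp H.subtype) (Tower hol H m) γ v} := by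
    ext v
    constructor
    · rintro ⟨γ, hγ, h⟩
      exact ⟨⟨γ, hγ⟩, h⟩
    · rintro ⟨γ, h⟩
      exact ⟨γ, γ.2, h⟩
  show Tower hol H m ⊔ Submodule.span ℝ {v : E | ∃ γ ∈ H, ∀ q : E, hol γ q - q - v ∈ Tower hol H m}
    = _
  rw [h1]
  rfl

end

section
variable {X Γ E : Type} [NormedAddCommGroup E] [NormedSpace ℝ E] [FiniteDimensional ℝ E]
  [TopologicalSpace X] [T2Space X] [SecondCountableTopology X] [Nonempty X] [Group Γ]
  [MulAction Γ X] {dev : X → E} {hol : Γ →* (E ≃ᵃ[ℝ] E)}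

theorem tower_good (D : AffData X Γ E dev hol) (hinj : Function.Injective dev) (H : Subgroup Γ)
    (hH : H.FiniteIndex) (m : ℕ) :
    ∃ N : Subgroup H, Good (hol.comp H.subtype) (range dev) (Tower hol H m) N := by
  induction m with
  | zero => exact ⟨⊥, good_bot _⟩
  | succ k ih =>
    obtain ⟨N, hN⟩ := ih
    rw [tower_eq]
    exact good_next (restrict D H hH) hinj hN

theorem tower_complete (D : AffData X Γ E dev hol) (hinj : Function.Injective dev)
    (H : Subgroup Γ) (hH : H.FiniteIndex) (m : ℕ)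
    (hc : ∀ γ ∈ H, ∀ δ ∈ H, ∀ q : E, hol (γ * δ) q - hol (δ * γ) q ∈ Tower hol H m) :
    IsHomeomorph dev := by
  obtain ⟨N, hN⟩ := tower_good D hinj H hH m
  exact complete_of_comm (restrict D H hH) hinj hN fun γ δ q => hc γ γ.2 δ δ.2 q

theorem abelian_complete (D : AffData X Γ E dev hol) (hinj : Function.Injective dev)
    (H : Subgroup Γ) (hH : H.FiniteIndex)
    (hc : ∀ γ ∈ H, ∀ δ ∈ H, ∀ v : E,
      (hol γ).linear ((hol δ).linear v) = (hol δ).linear ((hol γ).linear v)) :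
    IsHomeomorph dev := by
  refine tower_complete D hinj H hH 1 fun γ hγ δ hδ q => ?_
  rw [tower_eq]
  have key : ∀ p : E, hol (γ * δ) p - hol (δ * γ) p = hol (γ * δ) 0 - hol (δ * γ) 0 := by
    intro p
    have h1 : hol (γ * δ) p = hol (γ * δ) 0 + lin hol (γ * δ) p := by
      rw [← hol_add, zero_add]
    have h2 : hol (δ * γ) p = hol (δ * γ) 0 + lin hol (δ * γ) p := by
      rw [← hol_add, zero_add]
    have h3 : lin hol (γ * δ) p = lin hol (δ * γ) p := by
      rw [lin_mul, lin_mul]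
      exact hc γ hγ δ hδ p
    rw [h1, h2, h3]
    abel
  have h4 : Tr (hol.comp H.subtype) (Tower hol H 0)
      (⟨γ * δ * (δ * γ)⁻¹, H.mul_mem (H.mul_mem hγ hδ) (H.inv_mem (H.mul_mem hδ hγ))⟩ : H)
      (hol (γ * δ) 0 - hol (δ * γ) 0) := by
    intro p
    have h5 : hol (γ * δ * (δ * γ)⁻¹) p - p = hol (γ * δ) 0 - hol (δ * γ) 0 := by
      rw [← key (hol (δ * γ)⁻¹ p), hol_apply_inv, map_mul]
      rfl
    show hol (γ * δ * (δ * γ)⁻¹) p - p - _ ∈ _
    rw [h5, sub_self]
    exact Submodule.zero_mem _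
  rw [key q]
  exact tr_mem_next h4

end

end Pool.Agent.Y449.MK
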