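import Pool.Agent.Y449.MK.Dom3
import Pool.Agent.Y449.MK.Sub

/-!
The spectral splitting of one linear map, and the chain of its unitary part.
-/

set_option autoImplicit false

open Set Filter Topology Metric

namespace Pool.Agent.Y449.MK

open Pool.Agent.W689.Mk Pool.Agent.TH569.MK Pool.Agent.TH330.PX

open Polynomial

section spec
variable {Q : Type} [NormedAddCommGroup Q] [NormedSpace ℝ Q]

theorem comm_aeval {B T : Q →L[ℝ] Q} (h : B * T = T * B) (f : ℝ[X]) :
    B * aeval T f = aeval T f * B := by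
  induction f using Polynomial.induction_on' with
  | add p q hp hq => rw [map_add, mul_add, add_mul, hp, hq]
  | monomial n a =>
    rw [aeval_monomial]
    have h1 : B * T ^ n = T ^ n * B := ((show Commute B T from h).pow_right n).eq
    rw [← mul_assoc, ← (Algebra.commutes a B), mul_assoc, h1, mul_assoc]

theorem spec [FiniteDimensional ℝ Q] (T T' : Q →L[ℝ] Q) (h : T * T' = 1) (h' : T' * T = 1) :
    ∃ (fu fs : ℝ[X]) (Pc : Q →L[ℝ] Q) (q : ℝ[X]),
      aeval T fu + (aeval T fs + Pc) = 1 ∧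
      aeval T fu * aeval T fu = aeval T fu ∧ aeval T fs * aeval T fs = aeval T fs ∧
      Tendsto (fun n : ℕ => ‖T' ^ n * aeval T fu‖) atTop (𝓝 0) ∧
      Tendsto (fun n : ℕ => ‖T ^ n * aeval T fs‖) atTop (𝓝 0) ∧
      q ≠ 0 ∧ OneMod q 1 ∧ aeval T q * Pc = 0 := by
  classical
  have hG : Gr Q := fun A p hp hA r hr hroots =>
    Pool.Agent.TH738.PX.growth A p hp hA r hr hroots
  have hint : IsIntegral ℝ T := Algebra.IsIntegral.isIntegral T
  obtain ⟨p, hp⟩ : ∃ p, p = minpoly ℝ T := ⟨_, rfl⟩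
  have hp0 : p ≠ 0 := by rw [hp]; exact minpoly.ne_zero hint
  have hpT : aeval T p = 0 := by rw [hp]; exact minpoly.aeval ℝ T
  obtain ⟨ι, _, e, s, lam, b1, b2, b3⟩ := blk hp0
  have hdvd : ∀ q : ℝ[X], p ∣ q → aeval T q = 0 := by
    rintro q ⟨r, rfl⟩
    rw [map_mul, hpT, zero_mul]
  have hsum : ∑ i, aeval T (e i) = (1 : Q →L[ℝ] Q) := by
    have := hdvd _ b1
    rw [map_sub, map_sum, map_one, sub_eq_zero] at this
    exact this
  have hprod : ∀ i j, i ≠ j → aeval T (e i) * aeval T (e j) = 0 := by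
    intro i j hij
    rw [← map_mul]
    exact hdvd _ (b2 i j hij)
  have hidem : ∀ i, aeval T (e i) * aeval T (e i) = aeval T (e i) := by
    intro i
    conv_rhs => rw [← mul_one (aeval T (e i)), ← hsum, Finset.mul_sum]
    rw [Finset.sum_eq_single i]
    · intro j _ hji
      exact hprod i j (Ne.symm hji)
    · intro hi
      exact absurd (Finset.mem_univ i) hi
  have hcomm : ∀ i, T * aeval T (e i) = aeval T (e i) * T := fun i => comm_aeval rfl _
  have hsP : ∀ i, aeval T (s i) * aeval T (e i) = 0 := by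
    intro i
    rw [← map_mul]
    exact hdvd _ (b3 i).2.2.2
  have hId : ∀ A : Finset ι, (∑ i ∈ A, aeval T (e i)) * (∑ i ∈ A, aeval T (e i)) =
      ∑ i ∈ A, aeval T (e i) := by
    intro A
    rw [Finset.sum_mul]
    refine Finset.sum_congr rfl fun i hi => ?_
    rw [Finset.mul_sum, Finset.sum_eq_single i]
    · exact hidem i
    · intro j _ hji
      exact hprod i j (Ne.symm hji)
    · intro hi'
      exact absurd hi hi'
  have hten : ∀ (A : Finset ι) (S : Q →L[ℝ] Q), (∀ i ∈ A, ∃ C β : ℝ, 0 ≤ β ∧ β < 1 ∧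
      ∀ n : ℕ, ‖S ^ n * aeval T (e i)‖ ≤ C * β ^ n) →
      Tendsto (fun n : ℕ => ‖S ^ n * ∑ i ∈ A, aeval T (e i)‖) atTop (𝓝 0) := by
    intro A S hA
    rw [← tendsto_zero_iff_norm_tendsto_zero]
    have h1 : Tendsto (fun n : ℕ => ∑ i ∈ A, S ^ n * aeval T (e i)) atTop (𝓝 (∑ _i ∈ A, 0)) := by
      refine tendsto_finset_sum _ fun i hi => ?_
      obtain ⟨C, β, h0, h1, h2⟩ := hA i hi
      refine squeeze_zero_norm h2 ?_
      have := (tendsto_pow_atTop_nhds_zero_of_lt_one h0 h1).const_mul C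
      rwa [mul_zero] at this
    rw [Finset.sum_const_zero] at h1
    refine h1.congr fun n => ?_
    rw [Finset.mul_sum]
  obtain ⟨U, hU⟩ : ∃ U : Finset ι, U = Finset.univ.filter fun i => 1 < lam i := ⟨_, rfl⟩
  obtain ⟨L, hL⟩ : ∃ L : Finset ι, L = Finset.univ.filter fun i => lam i < 1 := ⟨_, rfl⟩
  obtain ⟨M, hM⟩ : ∃ M : Finset ι, M = Finset.univ.filter fun i => lam i = 1 := ⟨_, rfl⟩
  have hT'c : ∀ i, T' * aeval T (e i) = aeval T (e i) * T' := by
    intro i
    calc T' * aeval T (e i) = T' * (aeval T (e i) * T) * T' := by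
          rw [mul_assoc, mul_assoc, h, mul_one]
      _ = aeval T (e i) * T' := by rw [← hcomm, ← mul_assoc, h', one_mul]
  refine ⟨∑ i ∈ U, e i, ∑ i ∈ L, e i, ∑ i ∈ M, aeval T (e i), ∏ i ∈ M, s i, ?_, ?_, ?_, ?_, ?_,
    ?_, ?_, ?_⟩
  · rw [map_sum, map_sum, ← hsum]
    have hd1 : Disjoint L M := by
      rw [hL, hM, Finset.disjoint_filter]
      intro i _ h1 h2
      linarith
    have hd2 : Disjoint U (L ∪ M) := by
      rw [Finset.disjoint_union_right, hL, hM, hU, Finset.disjoint_filter, Finset.disjoint_filter]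
      constructor <;> intro i _ h1 h2 <;> linarith
    rw [← Finset.sum_union hd1, ← Finset.sum_union hd2]
    refine Finset.sum_congr ?_ fun _ _ => rfl
    ext i
    rw [hU, hL, hM]
    simp only [Finset.mem_union, Finset.mem_filter, Finset.mem_univ, true_and, iff_true]
    rcases lt_trichotomy (lam i) 1 with h1 | h1 | h1
    · exact Or.inr (Or.inl h1)
    · exact Or.inr (Or.inr h1)
    · exact Or.inl h1
  · rw [map_sum]; exact hId U
  · rw [map_sum]; exact hId L
  · rw [map_sum]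
    refine hten U T' fun i hi => ?_
    rw [hU, Finset.mem_filter] at hi
    have hi := hi.2
    have hi0 : 0 < lam i := by linarith
    have hinv1 : (lam i)⁻¹ < 1 := inv_lt_one_of_one_lt₀ hi
    have hinv0 : 0 < (lam i)⁻¹ := by positivity
    have hrev : aeval T' (s i).reverse * aeval T (e i) = 0 := by
      rw [reverse, aeval_reflect h' _ _ le_rfl, mul_assoc, hsP, mul_zero]
    obtain ⟨C, hC⟩ := upper hG (hT'c i) (hidem i) (s := (s i).reverse)
      (by rw [Ne, reverse_eq_zero]; exact (b3 i).1)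
      (oneMod_reverse (b3 i).1 (b3 i).2.1) hinv0.le (β := ((lam i)⁻¹ + 1) / 2) (by linarith) hrev
    exact ⟨C, _, by linarith, by linarith, hC⟩
  · rw [map_sum]
    refine hten L T fun i hi => ?_
    rw [hL, Finset.mem_filter] at hi
    have hi := hi.2
    have hi0 := (b3 i).2.2.1
    obtain ⟨C, hC⟩ := upper hG (hcomm i) (hidem i) (b3 i).1 (b3 i).2.1 hi0
      (β := (lam i + 1) / 2) (by linarith) (hsP i)
    exact ⟨C, _, by linarith, by linarith, hC⟩
  · exact Finset.prod_ne_zero_iff.2 fun i _ => (b3 i).1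
  · intro μ hμ
    rw [map_prod, Finset.prod_eq_zero_iff] at hμ
    obtain ⟨i, hi, hi2⟩ := hμ
    rw [hM, Finset.mem_filter] at hi
    rw [(b3 i).2.1 μ hi2, hi.2]
  · rw [Finset.mul_sum]
    refine Finset.sum_eq_zero fun i hi => ?_
    obtain ⟨k, hk⟩ : s i ∣ ∏ i ∈ M, s i := Finset.dvd_prod_of_mem s hi
    rw [hk, mul_comm, map_mul, mul_assoc, hsP, mul_zero]

/-- the powers are bounded modulo `S` -/
theorem pow_bdd {A : Q →L[ℝ] Q} {F S : Submodule ℝ Q} (hA : ∀ v ∈ S, A v ∈ S) {μ : ℂ}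
    (hμ : ‖μ‖ = 1) (h2 : ∀ v ∈ F, A (A v) - (2 * μ.re) • A v + v ∈ S)
    (h1 : μ.im = 0 → ∀ v ∈ F, A v - μ.re • v ∈ S) :
    ∃ C : ℝ, ∀ n : ℕ, ∀ v ∈ F, ∃ w ∈ S, ‖(A ^ n) v - w‖ ≤ C * ‖v‖ := by
  by_cases him : μ.im = 0
  · have hre : |μ.re| = 1 := by
      have := Complex.abs_re_eq_norm.2 him
      rw [this, hμ]
    refine ⟨1, fun n v hv => ⟨(A ^ n) v - (μ.re) ^ n • v, ?_, ?_⟩⟩
    · induction n with
      | zero => simp
      | succ n ih =>
        have e : (A ^ (n + 1)) v - μ.re ^ (n + 1) • v =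
            A ((A ^ n) v - μ.re ^ n • v) + μ.re ^ n • (A v - μ.re • v) := by
          rw [pow_succ', map_sub, map_smul, smul_sub, smul_smul, ← pow_succ]
          show A ((A ^ n) v) - _ = _
          abel
        rw [e]
        exact S.add_mem (hA _ ih) (S.smul_mem _ (h1 him v hv))
    · rw [sub_sub_cancel, norm_smul, norm_pow, Real.norm_eq_abs, hre, one_pow]
  · obtain ⟨a, ha⟩ : ∃ a : ℕ → ℝ, a = fun n => (μ ^ n).im / μ.im := ⟨_, rfl⟩
    have hnsq : μ.re ^ 2 + μ.im ^ 2 = 1 := by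
      have h3 : Complex.normSq μ = 1 := by rw [Complex.normSq_eq_norm_sq, hμ, one_pow]
      rw [Complex.normSq_apply] at h3
      nlinarith
    have hrec : ∀ n, a (n + 2) = 2 * μ.re * a (n + 1) - a n := by
      intro n
      have h3 : μ ^ (n + 2) = (2 * μ.re : ℝ) * μ ^ (n + 1) - μ ^ n := by
        have h4 : μ ^ 2 = (2 * μ.re : ℝ) * μ - 1 := by
          apply Complex.ext
          · simp [pow_two]
            nlinarith
          · simp [pow_two]
            ring
        calc μ ^ (n + 2) = μ ^ n * μ ^ 2 := by ring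
          _ = _ := by rw [h4]; ring
      rw [ha]
      beta_reduce
      rw [h3, Complex.sub_im, Complex.im_ofReal_mul]
      ring
    have ha1 : ∀ n, |a n| ≤ 1 / |μ.im| := by
      intro n
      rw [ha]
      beta_reduce
      rw [abs_div]
      have : |(μ ^ n).im| ≤ 1 := by
        refine (Complex.abs_im_le_norm _).trans ?_
        rw [norm_pow, hμ, one_pow]
      gcongr
    have ha00 : a 0 = 0 := by rw [ha]; simp
    have ha10 : a 1 = 1 := by rw [ha]; simp [him]
    have key : ∀ v ∈ F, ∀ n : ℕ, (A ^ (n + 1)) v - (a (n + 1) • A v - a n • v) ∈ S := by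
      intro v hv n
      induction n with
      | zero => simp [ha00, ha10]
      | succ n ih =>
        have e : (A ^ (n + 1 + 1)) v - (a (n + 1 + 1) • A v - a (n + 1) • v) =
            A ((A ^ (n + 1)) v - (a (n + 1) • A v - a n • v)) +
              a (n + 1) • (A (A v) - (2 * μ.re) • A v + v) := by
          have e1 : (A ^ (n + 1 + 1)) v = A ((A ^ (n + 1)) v) := by rw [pow_succ']; rfl
          rw [e1, map_sub, map_sub, map_smul, map_smul, show n + 1 + 1 = n + 2 from rfl, hrec]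
          module
        rw [e]
        exact S.add_mem (hA _ ih) (S.smul_mem _ (h2 v hv))
    have him' : 0 < |μ.im| := abs_pos.2 him
    refine ⟨1 / |μ.im| * ‖A‖ + 1 / |μ.im| + 1, fun n v hv => ?_⟩
    rcases n with _ | n
    · refine ⟨0, S.zero_mem, ?_⟩
      rw [pow_zero, sub_zero]
      have h3 : 0 ≤ 1 / |μ.im| * ‖A‖ + 1 / |μ.im| := by positivity
      have h4 := norm_nonneg v
      show ‖v‖ ≤ _
      nlinarith
    · refine ⟨_, key v hv n, ?_⟩
      rw [sub_sub_cancel]
      calc ‖a (n + 1) • A v - a n • v‖ ≤ ‖a (n + 1) • A v‖ + ‖a n • v‖ := norm_sub_le _ _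
        _ = |a (n + 1)| * ‖A v‖ + |a n| * ‖v‖ := by rw [norm_smul, norm_smul]; rfl
        _ ≤ 1 / |μ.im| * (‖A‖ * ‖v‖) + 1 / |μ.im| * ‖v‖ := by
          have := ha1 (n + 1)
          have := ha1 n
          have := A.le_opNorm v
          gcongr
        _ ≤ _ := by
          have := norm_nonneg v
          nlinarith

end spec

end Pool.Agent.Y449.MK
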