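import Pool.Agent.Y449.MK.Cosets

/-!
Towers of translations of quotients of domains.
-/

set_option autoImplicit false

open Set Filter Topology Metric
open Pool.Agent.W689.Mk Pool.Agent.TH94.MK

namespace Pool.Agent.Y449.MK

section
variable {Γ E : Type} [Group Γ] [NormedAddCommGroup E] [NormedSpace ℝ E]
  {hol : Γ →* (E ≃ᵃ[ℝ] E)}

theorem le_next (F : Submodule ℝ E) : F ≤ next hol F := le_sup_left

theorem tr_mem_next {F : Submodule ℝ E} {γ : Γ} {v : E} (h : Tr hol F γ v) : v ∈ next hol F :=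
  (le_sup_right : Submodule.span ℝ {v | ∃ γ : Γ, Tr hol F γ v} ≤ next hol F)
    (Submodule.subset_span ⟨γ, h⟩)

theorem next_inv {F : Submodule ℝ E} (hF : ∀ (γ : Γ), ∀ v ∈ F, lin hol γ v ∈ F) (γ : Γ) (v : E)
    (hv : v ∈ next hol F) : lin hol γ v ∈ next hol F := by
  have h1 : next hol F ≤ (next hol F).comap ((hol γ).linear : E →ₗ[ℝ] E) := by
    refine sup_le (fun v hv => le_next F (hF γ v hv)) ?_
    rw [Submodule.span_le]
    rintro v ⟨δ, hδ⟩
    refine tr_mem_next (γ := γ * δ * γ⁻¹) ?_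
    intro q
    have h2 := hF γ _ (hδ (hol γ⁻¹ q))
    have h3 : lin hol γ (hol δ (hol γ⁻¹ q) - hol γ⁻¹ q - v) =
        hol (γ * δ * γ⁻¹) q - q - lin hol γ v := by
      have h4 : lin hol γ (hol δ (hol γ⁻¹ q) - hol γ⁻¹ q - v) =
          lin hol γ (hol δ (hol γ⁻¹ q) - hol γ⁻¹ q) - lin hol γ v := (hol γ).linear.map_sub _ _
      rw [h4, ← hol_sub, hol_apply_inv, map_mul, map_mul]
      rfl
    rw [h3] at h2
    exact h2
  exact h1 hv

/-- cocompactness of the translations modulo `F` in finitely many directions -/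
theorem cocpt_step {F : Submodule ℝ E} (t : Finset E) (ht : ∀ v ∈ t, ∃ γ : Γ, Tr hol F γ v) :
    ∀ R : ℝ, ∃ R' : ℝ, ∀ (y : E), ∀ f ∈ F, ∀ g ∈ Submodule.span ℝ (t : Set E),
      ‖y - (f + g)‖ ≤ R → ∃ n ∈ trGroup hol F, ∃ f' ∈ F, ‖hol n y - f'‖ ≤ R' := by
  classical
  induction t using Finset.induction_on with
  | empty =>
    intro R
    refine ⟨R, fun y f hf g hg hy => ⟨1, Subgroup.one_mem _, f, hf, ?_⟩⟩
    simp only [Finset.coe_empty, Submodule.span_empty, Submodule.mem_bot] at hg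
    rw [hg, add_zero] at hy
    rw [map_one]
    exact hy
  | insert v s hvs ih =>
    intro R
    obtain ⟨γ, hγ⟩ := ht v (Finset.mem_insert_self v s)
    obtain ⟨R', hR'⟩ := ih (fun w hw => ht w (Finset.mem_insert_of_mem hw)) (R + ‖v‖)
    refine ⟨R', fun y f hf g hg hy => ?_⟩
    rw [Finset.coe_insert, Submodule.mem_span_insert] at hg
    obtain ⟨x, g', hg', rfl⟩ := hg
    have h1 := hγ.zpow (-⌊x⌋)
    have h2 := h1 y
    have h3 : ‖hol (γ ^ (-⌊x⌋)) y - ((f + (hol (γ ^ (-⌊x⌋)) y - y - ((-⌊x⌋ : ℤ) : ℝ) • v)) + g')‖ ≤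
        R + ‖v‖ := by
      have e1 : hol (γ ^ (-⌊x⌋)) y - ((f + (hol (γ ^ (-⌊x⌋)) y - y - ((-⌊x⌋ : ℤ) : ℝ) • v)) + g') =
          (y - (f + (x • v + g'))) + (x - (⌊x⌋ : ℝ)) • v := by
        push_cast
        module
      rw [e1]
      refine (norm_add_le _ _).trans (add_le_add hy ?_)
      rw [norm_smul, Real.norm_eq_abs]
      have h4 : |x - (⌊x⌋ : ℝ)| ≤ 1 := by
        have h5 := Int.fract_nonneg x
        have h6 := Int.fract_lt_one x
        rw [Int.fract] at h5 h6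
        rw [abs_le]
        constructor <;> linarith
      have := norm_nonneg v
      nlinarith
    obtain ⟨n, hn, f', hf', hnf⟩ := hR' _ _ (F.add_mem hf h2) g' hg' h3
    refine ⟨n * γ ^ (-⌊x⌋), Subgroup.mul_mem _ hn ⟨_, h1⟩, f', hf', ?_⟩
    rw [map_mul]
    exact hnf

end

section
variable {X Γ E : Type} [NormedAddCommGroup E] [NormedSpace ℝ E] [FiniteDimensional ℝ E]
  [TopologicalSpace X] [T2Space X] [SecondCountableTopology X] [Group Γ] [MulAction Γ X]
  {dev : X → E} {hol : Γ →* (E ≃ᵃ[ℝ] E)}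

/-- a convergent sequence of images, for elements with bounded image modulo a good pair -/
theorem limit_mem [Nonempty X] (D : AffData X Γ E dev hol) (hinj : Function.Injective dev)
    {F : Submodule ℝ E} {N : Subgroup Γ} (hG : Good hol (range dev) F N) {p : E} {r R : ℝ}
    (hr : 0 < r) (hball : closedBall p r ⊆ range dev) {n : ℕ → Γ} {w : ℕ → E} {w0 q : E}
    (hS : ∀ k, ∀ u ∈ ball p r, ∃ f ∈ F, ‖hol (n k) u - f‖ ≤ R)
    (hw : Tendsto w atTop (𝓝 w0)) (hw0 : w0 ∈ range dev)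
    (hq : Tendsto (fun k => hol (n k) (w k)) atTop (𝓝 q)) : q ∈ range dev := by
  obtain ⟨T, hT, hTn⟩ := finite_cosets D hinj hG hr hball (S := range n) (R := R) (by
    rintro _ ⟨k, rfl⟩
    exact hS k)
  choose δ hδT hδN using fun k => hTn (n k) ⟨k, rfl⟩
  obtain ⟨d, -, φ, hφ, hφd⟩ := pigeon hT hδT
  refine hG.prop (fun k => n (φ k) * d⁻¹) (fun k => hol d (w (φ k))) (hol d w0) q ?_ ?_
    (range_inv D d w0 hw0) ?_
  · intro k
    have := hδN (φ k)
    rwa [hφd k] at this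
  · exact ((hol_cont d).tendsto w0).comp (hw.comp hφ.tendsto_atTop)
  · refine (hq.comp hφ.tendsto_atTop).congr fun k => ?_
    show hol (n (φ k)) (w (φ k)) = hol (n (φ k) * d⁻¹) (hol d (w (φ k)))
    rw [map_mul]
    show _ = hol (n (φ k)) (hol d⁻¹ (hol d (w (φ k))))
    rw [hol_inv_apply]

omit [NormedSpace ℝ E] [FiniteDimensional ℝ E] in
theorem bdd_of_tendsto {u : ℕ → E} {a : E} (h : Tendsto u atTop (𝓝 a)) : ∃ C, ∀ k, ‖u k‖ ≤ C := by
  obtain ⟨C, hC⟩ := (Metric.isBounded_range_of_tendsto u h).exists_norm_le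
  exact ⟨C, fun k => hC _ ⟨k, rfl⟩⟩

/-- the next step of the tower -/
theorem good_next [Nonempty X] (D : AffData X Γ E dev hol) (hinj : Function.Injective dev)
    {F : Submodule ℝ E} {N : Subgroup Γ} (hG : Good hol (range dev) F N) :
    ∃ N' : Subgroup Γ, Good hol (range dev) (next hol F) N' := by
  have hN : N ≤ trGroup hol F := fun n hn => ⟨0, fun q => by
    rw [sub_zero]
    exact hG.triv n hn q⟩
  refine ⟨trGroup hol F, next_inv hG.inv, ?_, ?_, ?_⟩
  · rintro n ⟨v, hv⟩ q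
    have h1 := (next hol F).add_mem (le_next F (hv q)) (tr_mem_next hv)
    rwa [sub_add_cancel] at h1
  · intro R
    have hfg : (Submodule.span ℝ {v : E | ∃ γ : Γ, Tr hol F γ v}).FG := IsNoetherian.noetherian _
    obtain ⟨t, hts, hspan⟩ := (Submodule.fg_span_iff_fg_span_finset_subset _).1 hfg
    obtain ⟨R1, hR1⟩ := cocpt_step (hol := hol) (F := F) t (fun v hv => hts hv) R
    obtain ⟨R2, hR2⟩ := hG.cocpt R1
    refine ⟨R2, fun y f hf hy => ?_⟩
    obtain ⟨f1, hf1, g1, hg1, rfl⟩ := Submodule.mem_sup.1 hf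
    rw [hspan] at hg1
    obtain ⟨n, hn, f', hf', h1⟩ := hR1 y f1 hf1 g1 hg1 hy
    obtain ⟨n', hn', h2⟩ := hR2 _ f' hf' h1
    refine ⟨n' * n, Subgroup.mul_mem _ (hN hn') hn, ?_⟩
    rw [map_mul]
    exact h2
  · intro n w w0 q hn hw hw0 hq
    choose v hv using hn
    obtain ⟨r, hr, hball⟩ := Metric.nhds_basis_closedBall.mem_iff.1
      ((D.loc.isOpenMap.isOpen_range).mem_nhds hw0)
    obtain ⟨C1, hC1⟩ := bdd_of_tendsto hq
    obtain ⟨C2, hC2⟩ := bdd_of_tendsto hw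
    refine limit_mem D hinj hG hr hball (R := (‖w0‖ + r) + C1 + C2) (n := n) ?_ hw hw0 hq
    intro k u hu
    refine ⟨(hol (n k) u - u - v k) - (hol (n k) (w k) - w k - v k),
      F.sub_mem (hv k u) (hv k (w k)), ?_⟩
    have e1 : hol (n k) u - ((hol (n k) u - u - v k) - (hol (n k) (w k) - w k - v k)) =
        u + hol (n k) (w k) - w k := by abel
    rw [e1]
    have h1 : ‖u‖ ≤ ‖w0‖ + r := by
      have h2 : ‖u - w0‖ < r := by rwa [mem_ball, dist_eq_norm] at hu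
      have h3 : ‖u‖ ≤ ‖w0‖ + ‖u - w0‖ := by
        calc ‖u‖ = ‖w0 + (u - w0)‖ := by congr 1; abel
          _ ≤ _ := norm_add_le _ _
      linarith
    calc ‖u + hol (n k) (w k) - w k‖ ≤ ‖u + hol (n k) (w k)‖ + ‖w k‖ := norm_sub_le _ _
      _ ≤ ‖u‖ + ‖hol (n k) (w k)‖ + ‖w k‖ := by gcongr; exact norm_add_le _ _
      _ ≤ (‖w0‖ + r) + C1 + C2 := by
        have := hC1 k
        have := hC2 k
        gcongr

end

end Pool.Agent.Y449.MK
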